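import Mathlib

/-!
# The Lie algebra generated by the conjugates of a transvection
-/

set_option autoImplicit false
set_option linter.unusedSectionVars false

namespace Pool.Agent.L0h15.MN

open Module

variable {k V G : Type*} [Field k] [AddCommGroup V] [Module k V] [Group G]

/-- the endomorphism `x ↦ ω(b, x) c + ω(c, x) b` -/
noncomputable def XX (ω : V →ₗ[k] V →ₗ[k] k) (b c : V) : End k V :=
  (ω b).smulRight c + (ω c).smulRight b

theorem XX_apply (ω : V →ₗ[k] V →ₗ[k] k) (b c x : V) : XX ω b c x = ω b x • c + ω c x • b := rfl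

theorem XX_comm (ω : V →ₗ[k] V →ₗ[k] k) (b c : V) : XX ω b c = XX ω c b := by
  unfold XX
  rw [add_comm]

theorem XX_add (ω : V →ₗ[k] V →ₗ[k] k) (b c c' : V) :
    XX ω b (c + c') = XX ω b c + XX ω b c' := by
  ext x
  rw [LinearMap.add_apply, XX_apply, XX_apply, XX_apply, map_add, LinearMap.add_apply, smul_add,
    add_smul]
  abel

theorem XX_smul (ω : V →ₗ[k] V →ₗ[k] k) (b c : V) (a : k) : XX ω b (a • c) = a • XX ω b c := by
  ext x
  rw [LinearMap.smul_apply, XX_apply, XX_apply, map_smul, LinearMap.smul_apply, smul_add,
    smul_eq_mul, mul_smul, smul_comm]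

theorem XX_zero (ω : V →ₗ[k] V →ₗ[k] k) (b : V) : XX ω b 0 = 0 := by
  have h := XX_smul ω b 0 0
  rwa [zero_smul, zero_smul] at h

section

variable {ω : V →ₗ[k] V →ₗ[k] k} (halt : ∀ x, ω x x = 0)

include halt in
theorem skew (x y : V) : ω y x = -ω x y := by
  have h := halt (x + y)
  simp only [map_add, LinearMap.add_apply] at h
  rw [halt, halt, zero_add, add_zero] at h
  exact eq_neg_of_add_eq_zero_left h

include halt in
theorem bracket1 (u v : V) :
    (XX ω u u * XX ω v v - XX ω v v * XX ω u u : End k V) = (4 * ω u v) • XX ω u v := by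
  ext x
  simp only [LinearMap.sub_apply, Module.End.mul_apply, LinearMap.smul_apply, XX_apply, map_add,
    map_smul]
  rw [skew halt u v]
  module

include halt in
theorem bracket2 (u v w : V) :
    (XX ω u v * XX ω w w - XX ω w w * XX ω u v : End k V) =
      (2 * ω u w) • XX ω v w + (2 * ω v w) • XX ω u w := by
  ext x
  simp only [LinearMap.sub_apply, Module.End.mul_apply, LinearMap.smul_apply, XX_apply, map_add,
    map_smul, LinearMap.add_apply]
  rw [skew halt u w, skew halt v w]
  module

end

variable [CharZero k] [FiniteDimensional k V]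

/-- **Generation.** A strongly irreducible group of symplectic similitudes and the square of one
nonzero vector generate the symplectic Lie algebra. -/
theorem generate (r : Representation k G V) {ω : V →ₗ[k] V →ₗ[k] k} (halt : ∀ x, ω x x = 0)
    (hnd : ∀ x, (∀ y, ω x y = 0) → x = 0) (μ : G → k) (hμ : ∀ g, μ g ≠ 0)
    (hω : ∀ g x y, ω (r g x) (r g y) = μ g * ω x y)
    (hirr : ∀ H : Subgroup G, H.FiniteIndex → ∀ U : Submodule k V,
      (∀ h ∈ H, ∀ x ∈ U, r h x ∈ U) → U = ⊥ ∨ U = ⊤)
    (u₀ : V) (hu₀ : u₀ ≠ 0) (L : Submodule k (End k V))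
    (hL : ∀ X ∈ L, ∀ Y ∈ L, X * Y - Y * X ∈ L)
    (hmem : ∀ g, XX ω (r g u₀) (r g u₀) ∈ L) (b c : V) : XX ω b c ∈ L := by
  classical
  let R : G → G → Prop := fun a b => ω (r a u₀) (r b u₀) ≠ 0
  have hRsymm : ∀ a b, R a b → R b a := by
    intro a b h
    change ω (r b u₀) (r a u₀) ≠ 0
    rw [skew halt (r a u₀) (r b u₀)]
    exact neg_ne_zero.2 h
  have hRmul : ∀ g a b, R a b → R (g * a) (g * b) := by
    intro g a b h
    change ω (r (g * a) u₀) (r (g * b) u₀) ≠ 0
    rw [map_mul, map_mul, Module.End.mul_apply, Module.End.mul_apply, hω]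
    exact mul_ne_zero (hμ g) h
  have hCsymm : ∀ a b, Relation.ReflTransGen R a b → Relation.ReflTransGen R b a := by
    intro a b h
    induction h with
    | refl => exact Relation.ReflTransGen.refl
    | tail _ h2 ih => exact Relation.ReflTransGen.head (hRsymm _ _ h2) ih
  have hCmul : ∀ g a b, Relation.ReflTransGen R a b →
      Relation.ReflTransGen R (g * a) (g * b) := by
    intro g a b h
    induction h with
    | refl => exact Relation.ReflTransGen.refl
    | tail _ h2 ih => exact ih.tail (hRmul g _ _ h2)
  let H : Subgroup G :=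
    { carrier := {g | Relation.ReflTransGen R 1 g}
      one_mem' := Relation.ReflTransGen.refl
      mul_mem' := by
        intro a b ha hb
        have h1 := hCmul a 1 b hb
        rw [mul_one] at h1
        exact Relation.ReflTransGen.trans ha h1
      inv_mem' := by
        intro a ha
        have h1 := hCmul a⁻¹ 1 a ha
        rw [mul_one, inv_mul_cancel] at h1
        exact hCsymm _ _ h1 }
  have hspanG : Submodule.span k (Set.range fun g => r g u₀) = ⊤ := by
    rcases hirr ⊤ inferInstance (Submodule.span k (Set.range fun g => r g u₀)) (by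
      intro h _ x hx
      induction hx using Submodule.span_induction with
      | mem x hx =>
        obtain ⟨g, rfl⟩ := hx
        refine Submodule.subset_span ⟨h * g, ?_⟩
        simp only
        rw [map_mul, Module.End.mul_apply]
      | zero => rw [map_zero]; exact Submodule.zero_mem _
      | add x y _ _ hx hy => rw [map_add]; exact Submodule.add_mem _ hx hy
      | smul a x _ hx => rw [map_smul]; exact Submodule.smul_mem _ a hx) with h | h
    · exfalso
      apply hu₀
      have h1 : u₀ ∈ Submodule.span k (Set.range fun g => r g u₀) :=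
        Submodule.subset_span ⟨1, by simp⟩
      rwa [h, Submodule.mem_bot] at h1
    · exact h
  have hex : ∀ v : V, v ≠ 0 → ∃ g, ω v (r g u₀) ≠ 0 := by
    intro v hv
    by_contra hcon
    push Not at hcon
    apply hv
    refine hnd v fun y => ?_
    have hy : y ∈ Submodule.span k (Set.range fun g => r g u₀) := by
      rw [hspanG]
      exact Submodule.mem_top
    induction hy using Submodule.span_induction with
    | mem x hx => obtain ⟨g, rfl⟩ := hx; exact hcon g
    | zero => rw [map_zero]
    | add x y _ _ hx hy => rw [map_add, hx, hy, add_zero]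
    | smul a x _ hx => rw [map_smul, hx, smul_zero]
  have hr0 : ∀ g, r g u₀ ≠ 0 := by
    intro g h
    apply hu₀
    have h1 : r g⁻¹ (r g u₀) = u₀ := by
      rw [← Module.End.mul_apply, ← map_mul, inv_mul_cancel, map_one]
      rfl
    rw [← h1, h, map_zero]
  have hfin : H.FiniteIndex := by
    have hli : LinearIndependent k fun q : G ⧸ H => r q.out u₀ := by
      rw [linearIndependent_iff']
      intro s a ha q₀ hq₀
      obtain ⟨g', hg'⟩ := hex (r q₀.out u₀) (hr0 _)
      have h1 := congrArg (fun x => ω x (r g' u₀)) ha
      simp only [map_sum, LinearMap.sum_apply, map_smul, LinearMap.smul_apply, map_zero,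
        LinearMap.zero_apply, smul_eq_mul] at h1
      rw [Finset.sum_eq_single q₀] at h1
      · rcases mul_eq_zero.1 h1 with h2 | h2
        · exact h2
        · exact absurd h2 hg'
      · intro q _ hqq
        by_contra hne
        have h2 : R q.out g' := fun h => hne (by rw [h, mul_zero])
        have h3 : Relation.ReflTransGen R q.out q₀.out :=
          (Relation.ReflTransGen.single h2).trans (hCsymm _ _ (Relation.ReflTransGen.single hg'))
        apply hqq
        have h4 : q.out⁻¹ * q₀.out ∈ H := by
          have h5 := hCmul q.out⁻¹ _ _ h3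
          rw [inv_mul_cancel] at h5
          exact h5
        have h5 : (q.out : G ⧸ H) = (q₀.out : G ⧸ H) := QuotientGroup.eq.2 h4
        rw [QuotientGroup.out_eq', QuotientGroup.out_eq'] at h5
        exact h5
      · intro h
        exact absurd hq₀ h
    have h1 : Finite (G ⧸ H) := hli.finite_of_isNoetherian
    exact Subgroup.finiteIndex_of_finite_quotient
  have hspanH : Submodule.span k (Set.range fun h : H => r h u₀) = ⊤ := by
    rcases hirr H hfin (Submodule.span k (Set.range fun g : H => r g u₀)) (by
      intro h hh x hx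
      induction hx using Submodule.span_induction with
      | mem x hx =>
        obtain ⟨g, rfl⟩ := hx
        refine Submodule.subset_span ⟨⟨h, hh⟩ * g, ?_⟩
        simp only
        rw [Subgroup.coe_mul, map_mul, Module.End.mul_apply]
      | zero => rw [map_zero]; exact Submodule.zero_mem _
      | add x y _ _ hx hy => rw [map_add]; exact Submodule.add_mem _ hx hy
      | smul a x _ hx => rw [map_smul]; exact Submodule.smul_mem _ a hx) with h | h
    · exfalso
      apply hu₀
      have h1 : u₀ ∈ Submodule.span k (Set.range fun g : H => r g u₀) :=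
        Submodule.subset_span ⟨1, by simp⟩
      rwa [h, Submodule.mem_bot] at h1
    · exact h
  have hstep : ∀ a b, Relation.ReflTransGen R a b → XX ω (r a u₀) (r b u₀) ∈ L := by
    intro a b h
    induction h with
    | refl => exact hmem a
    | @tail b c _ h2 ih =>
      have h3 : XX ω (r b u₀) (r c u₀) ∈ L := by
        have h4 := hL _ (hmem b) _ (hmem c)
        rw [bracket1 halt] at h4
        have h5 : (4 * ω (r b u₀) (r c u₀)) ≠ 0 := mul_ne_zero (by norm_num) h2
        have h6 := L.smul_mem (4 * ω (r b u₀) (r c u₀))⁻¹ h4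
        rwa [smul_smul, inv_mul_cancel₀ h5, one_smul] at h6
      have h4 := hL _ ih _ (hmem c)
      rw [bracket2 halt] at h4
      have h5 : (2 * ω (r b u₀) (r c u₀)) ≠ 0 := mul_ne_zero (by norm_num) h2
      have h6 := L.sub_mem h4 (L.smul_mem (2 * ω (r a u₀) (r c u₀)) h3)
      rw [add_sub_cancel_left] at h6
      have h7 := L.smul_mem (2 * ω (r b u₀) (r c u₀))⁻¹ h6
      rwa [smul_smul, inv_mul_cancel₀ h5, one_smul] at h7
  have hHH : ∀ h h' : H, XX ω (r h u₀) (r h' u₀) ∈ L := by
    intro h h'
    exact hstep _ _ ((hCsymm _ _ h.2).trans h'.2)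
  have h1 : ∀ (h : H) (c : V), XX ω (r h u₀) c ∈ L := by
    intro h c
    have hc : c ∈ Submodule.span k (Set.range fun h : H => r h u₀) := by
      rw [hspanH]
      exact Submodule.mem_top
    induction hc using Submodule.span_induction with
    | mem x hx => obtain ⟨g, rfl⟩ := hx; exact hHH h g
    | zero => rw [XX_zero]; exact L.zero_mem
    | add x y _ _ hx hy => rw [XX_add]; exact L.add_mem hx hy
    | smul a x _ hx => rw [XX_smul]; exact L.smul_mem a hx
  rw [XX_comm]
  have hb : b ∈ Submodule.span k (Set.range fun h : H => r h u₀) := by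
    rw [hspanH]
    exact Submodule.mem_top
  induction hb using Submodule.span_induction with
  | mem x hx =>
    obtain ⟨g, rfl⟩ := hx
    rw [XX_comm]
    exact h1 g c
  | zero => rw [XX_zero]; exact L.zero_mem
  | add x y _ _ hx hy => rw [XX_add]; exact L.add_mem hx hy
  | smul a x _ hx => rw [XX_smul]; exact L.smul_mem a hx

end Pool.Agent.L0h15.MN
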