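import Mathlib
import Pool.Agent.H204R3.SP.Lie
import Pool.Agent.H204R3.CM.Alt
import Pool.Agent.H204R3.GP.FFT
import Pool.Agent.L0h15.MN.Gen

/-!
# The first fundamental theorem for products of symplectic groups, without coordinates
-/

set_option autoImplicit false
set_option linter.unusedSectionVars false

namespace Pool.Agent.L0h15.MN

open Module Pool.Agent.H204R3.SP Pool.Agent.H204R3.CM Pool.Agent.H204R3.GP

section symp

variable {k V : Type*} [Field k] [AddCommGroup V] [Module k V] [FiniteDimensional k V]
  {ω : V →ₗ[k] V →ₗ[k] k} (halt : ∀ x, ω x x = 0)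

include halt in
theorem exists_symp_sub (d : ℕ) : ∀ W : Submodule k V, finrank k W = d →
    (∀ x ∈ W, (∀ y ∈ W, ω x y = 0) → x = 0) →
    ∃ (R : Type) (_ : Fintype R) (_ : DecidableEq R) (inv : R → R) (jj : R → k) (e : R → V),
      (∀ x, inv (inv x) = x) ∧ (∀ x, jj (inv x) = -jj x) ∧ (∀ x, jj x ≠ 0) ∧
      (∀ x y, ω (e x) (e y) = JJ inv jj x y) ∧ Submodule.span k (Set.range e) = W := by
  induction d using Nat.strong_induction_on with
  | _ d ih =>
    intro W hd hW
    by_cases hbot : W = ⊥
    · subst hbot
      refine ⟨Empty, inferInstance, inferInstance, id, fun x => x.elim, fun x => x.elim,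
        fun x => x.elim, fun x => x.elim, fun x => x.elim, fun x => x.elim, ?_⟩
      rw [Set.range_eq_empty, Submodule.span_empty]
    · obtain ⟨u, hu, hu0⟩ := Submodule.exists_mem_ne_zero_of_ne_bot hbot
      obtain ⟨v, hv, huv⟩ : ∃ v ∈ W, ω u v ≠ 0 := by
        by_contra hcon
        push Not at hcon
        exact hu0 (hW u hu hcon)
      set W' : Submodule k V := W ⊓ LinearMap.ker (ω u) ⊓ LinearMap.ker (ω v) with hW'
      have hmem : ∀ x, x ∈ W' ↔ x ∈ W ∧ ω u x = 0 ∧ ω v x = 0 := by
        intro x
        rw [hW', Submodule.mem_inf, Submodule.mem_inf, LinearMap.mem_ker, LinearMap.mem_ker,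
          and_assoc]
      have hvu : ω v u = -ω u v := skew halt u v
      have hlt : W' < W := by
        refine lt_of_le_of_ne (fun x hx => ((hmem x).1 hx).1) ?_
        intro heq
        rw [← heq] at hu
        have h1 := ((hmem u).1 hu).2.2
        rw [hvu, neg_eq_zero] at h1
        exact huv h1
      have hdec : ∀ y ∈ W, y - (ω y v / ω u v) • u - (ω u y / ω u v) • v ∈ W' := by
        intro y hy
        rw [hmem]
        refine ⟨W.sub_mem (W.sub_mem hy (W.smul_mem _ hu)) (W.smul_mem _ hv), ?_, ?_⟩
        · rw [map_sub, map_sub, map_smul, map_smul, halt, smul_zero, sub_zero, smul_eq_mul,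
            div_mul_cancel₀ _ huv, sub_self]
        · rw [map_sub, map_sub, map_smul, map_smul, halt, smul_zero, sub_zero, smul_eq_mul, hvu,
            mul_neg, div_mul_cancel₀ _ huv, skew halt y v, sub_neg_eq_add, neg_add_cancel]
      have hnd' : ∀ x ∈ W', (∀ y ∈ W', ω x y = 0) → x = 0 := by
        intro x hx hxy
        obtain ⟨hxW, hux, hvx⟩ := (hmem x).1 hx
        refine hW x hxW fun y hy => ?_
        have h1 := hxy _ (hdec y hy)
        rw [map_sub, map_sub, map_smul, map_smul, skew halt u x, skew halt v x, hux, hvx, neg_zero,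
          smul_zero, smul_zero, sub_zero, sub_zero] at h1
        exact h1
      obtain ⟨R, i1, i2, inv, jj, e, h1, h2, h3, h4, h5⟩ := ih (finrank k W')
        (by rw [← hd]; exact Submodule.finrank_lt_finrank_of_lt hlt) W' rfl hnd'
      have he : ∀ x, e x ∈ W' := by
        intro x
        rw [← h5]
        exact Submodule.subset_span ⟨x, rfl⟩
      refine ⟨Bool ⊕ R, inferInstance, inferInstance, Sum.map not inv,
        Sum.elim (fun b => if b then -ω u v else ω u v) jj,
        Sum.elim (fun b => if b then v else u) e, ?_, ?_, ?_, ?_, ?_⟩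
      · rintro (b | x)
        · simp
        · simp [h1]
      · rintro (b | x)
        · cases b <;> simp
        · simp [h2]
      · rintro (b | x)
        · cases b <;> simp [huv]
        · simp [h3]
      · have hue : ∀ x, ω u (e x) = 0 := fun x => ((hmem _).1 (he x)).2.1
        have hve : ∀ x, ω v (e x) = 0 := fun x => ((hmem _).1 (he x)).2.2
        have heu : ∀ x, ω (e x) u = 0 := fun x => by rw [skew halt u, hue, neg_zero]
        have hev : ∀ x, ω (e x) v = 0 := fun x => by rw [skew halt v, hve, neg_zero]
        rintro (b | x) (b' | y)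
        · cases b <;> cases b' <;> simp [JJ, halt, hvu]
        · cases b <;> simp [JJ, hue, hve]
        · cases b' <;> simp [JJ, heu, hev]
        · have h6 := h4 x y
          simp only [Sum.elim_inr]
          rw [h6]
          unfold JJ
          simp only [Sum.map_inr, Sum.inr.injEq, Sum.elim_inr]
      · apply le_antisymm
        · rw [Submodule.span_le]
          rintro _ ⟨b | x, rfl⟩
          · cases b
            · exact hu
            · exact hv
          · exact ((hmem _).1 (he x)).1
        · intro y hy
          have h6 := hdec y hy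
          have h7 : Submodule.span k (Set.range e) ≤ Submodule.span k (Set.range
              (Sum.elim (fun b : Bool => if b then v else u) e)) := by
            apply Submodule.span_mono
            rintro _ ⟨x, rfl⟩
            exact ⟨Sum.inr x, rfl⟩
          rw [← h5] at h6
          have h8 := h7 h6
          have h9 : u ∈ Submodule.span k (Set.range
              (Sum.elim (fun b : Bool => if b then v else u) e)) :=
            Submodule.subset_span ⟨Sum.inl false, rfl⟩
          have h10 : v ∈ Submodule.span k (Set.range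
              (Sum.elim (fun b : Bool => if b then v else u) e)) :=
            Submodule.subset_span ⟨Sum.inl true, rfl⟩
          have h11 : y = (y - (ω y v / ω u v) • u - (ω u y / ω u v) • v) +
              (ω y v / ω u v) • u + (ω u y / ω u v) • v := by abel
          rw [h11]
          exact Submodule.add_mem _ (Submodule.add_mem _ h8 (Submodule.smul_mem _ _ h9))
            (Submodule.smul_mem _ _ h10)

include halt in
/-- **Symplectic bases.** -/
theorem exists_symp (hnd : ∀ x, (∀ y, ω x y = 0) → x = 0) :
    ∃ (R : Type) (_ : Fintype R) (_ : DecidableEq R) (inv : R → R) (jj : R → k)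
      (e : Basis R k V), (∀ x, inv (inv x) = x) ∧ (∀ x, jj (inv x) = -jj x) ∧ (∀ x, jj x ≠ 0) ∧
      ∀ x y, ω (e x) (e y) = JJ inv jj x y := by
  obtain ⟨R, i1, i2, inv, jj, e, h1, h2, h3, h4, h5⟩ := exists_symp_sub halt _ ⊤ rfl
    (fun x _ hx => hnd x fun y => hx y Submodule.mem_top)
  have hli : LinearIndependent k e := by
    rw [Fintype.linearIndependent_iff]
    intro a ha x
    have h6 := congrArg (fun z => ω z (e (inv x))) ha
    simp only [map_sum, LinearMap.sum_apply, map_smul, LinearMap.smul_apply, map_zero,
      LinearMap.zero_apply, smul_eq_mul, h4] at h6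
    rw [Finset.sum_eq_single x] at h6
    · unfold JJ at h6
      rw [if_pos rfl] at h6
      exact (mul_eq_zero.1 h6).resolve_right (h3 x)
    · intro y _ hyx
      unfold JJ
      rw [if_neg, mul_zero]
      intro h
      apply hyx
      rw [← h1 y, ← h, h1]
    · intro h
      exact absurd (Finset.mem_univ x) h
  refine ⟨R, i1, i2, inv, jj, Basis.mk hli (by rw [h5]), h1, h2, h3, fun x y => ?_⟩
  rw [Basis.mk_apply, Basis.mk_apply, h4]

end symp

section multi

variable {k : Type*} [Field k] {ι : Type} [Fintype ι] [DecidableEq ι] {V : ι → Type}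
  [∀ i, AddCommGroup (V i)] [∀ i, Module k (V i)] [∀ i, FiniteDimensional k (V i)]

/-- the form `ω i` on the product -/
noncomputable def prForm (ω : ∀ i, V i →ₗ[k] V i →ₗ[k] k) (i : ι) :
    (∀ i, V i) →ₗ[k] (∀ i, V i) →ₗ[k] k :=
  (ω i).compl₁₂ (LinearMap.proj i) (LinearMap.proj i)

/-- the product of forms over a matching -/
noncomputable def pm (ω : ∀ i, V i →ₗ[k] V i →ₗ[k] k) {κ : Type} {m : ℕ}
    (e : Fin m × Fin 2 ≃ κ) (c : Fin m → ι) : MultilinearMap k (fun _ : κ => ∀ i, V i) k :=
  (prodMap (fun l : Fin m => bil2 (prForm ω (c l)))).domDomCongr e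

theorem pm_apply (ω : ∀ i, V i →ₗ[k] V i →ₗ[k] k) {κ : Type} {m : ℕ}
    (e : Fin m × Fin 2 ≃ κ) (c : Fin m → ι) (v : κ → ∀ i, V i) :
    pm ω e c v = ∏ l, ω (c l) (v (e (l, 0)) (c l)) (v (e (l, 1)) (c l)) := rfl

/-- **First fundamental theorem** for products of symplectic groups. -/
theorem fft_multi [CharZero k] (ω : ∀ i, V i →ₗ[k] V i →ₗ[k] k) (halt : ∀ i x, ω i x x = 0)
    (hnd : ∀ i x, (∀ y, ω i x y = 0) → x = 0) {κ : Type} [Fintype κ] [DecidableEq κ] {m : ℕ}
    (hκ : Fintype.card κ = 2 * m) (f : MultilinearMap k (fun _ : κ => ∀ i, V i) k)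
    (hf : ∀ (i : ι) (b c : V i) (v : κ → ∀ i, V i),
      ∑ p, f (Function.update v p (Pi.single i (XX (ω i) b c (v p i)))) = 0) :
    f ∈ Submodule.span k {g | ∃ (e : Fin m × Fin 2 ≃ κ) (c : Fin m → ι), g = pm ω e c} := by
  classical
  choose R i1 i2 inv jj e h1 h2 h3 h4 using fun i => exists_symp (halt i) (hnd i)
  let E : Basis (Σ i, R i) k (∀ i, V i) := Pi.basis e
  have hE : ∀ x, E x = Pi.single x.1 (e x.1 x.2) := fun x => Pi.basis_apply e x
  let cls : (Σ i, R i) → ι := Sigma.fst
  let inv' : (Σ i, R i) → (Σ i, R i) := fun x => ⟨x.1, inv x.1 x.2⟩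
  let jj' : (Σ i, R i) → k := fun x => jj x.1 x.2
  have hinv' : ∀ x, inv' (inv' x) = x := by
    rintro ⟨i, x⟩
    change (⟨i, inv i (inv i x)⟩ : Σ i, R i) = ⟨i, x⟩
    rw [h1]
  have hjj' : ∀ x, jj' (inv' x) = -jj' x := fun x => h2 x.1 x.2
  have hj0' : ∀ x, jj' x ≠ 0 := fun x => h3 x.1 x.2
  have hcls : ∀ x y, cls x = cls y → cls (inv' x) = cls (inv' y) := fun x y h => h
  let coef : MultilinearMap k (fun _ : κ => ∀ i, V i) k →ₗ[k] ((κ → Σ i, R i) → k) :=
    { toFun := fun φ I => φ (fun p => E (I p))
      map_add' := fun _ _ => rfl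
      map_smul' := fun _ _ => rfl }
  have hinj : Function.Injective coef := fun φ φ' h =>
    Basis.ext_multilinear (fun _ => E) fun I => congrFun h I
  have hJ : ∀ x y : Σ i, R i, JJ inv' jj' x y = if h : y.1 = x.1 then
      JJ (inv x.1) (jj x.1) x.2 (h ▸ y.2) else 0 := by
    rintro ⟨i, x⟩ ⟨j, y⟩
    by_cases h : j = i
    · subst h
      rw [dif_pos rfl]
      unfold JJ
      by_cases hy : y = inv j x
      · rw [if_pos (by rw [hy]), if_pos hy]
      · rw [if_neg, if_neg hy]
        intro h5
        apply hy
        have h6 := (Sigma.mk.inj_iff.1 h5).2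
        exact eq_of_heq h6
    · rw [dif_neg h]
      unfold JJ
      rw [if_neg]
      intro h5
      exact h (congrArg Sigma.fst h5)
  have hXE : ∀ (i : ι) (x y : R i) (z : Σ i, R i),
      (Pi.single i (XX (ω i) (e i x) (e i y) (E z i)) : ∀ i, V i) =
        JJ inv' jj' ⟨i, x⟩ z • E ⟨i, y⟩ + JJ inv' jj' ⟨i, y⟩ z • E ⟨i, x⟩ := by
    rintro i x y ⟨j, z⟩
    rw [hE, hE, hE]
    by_cases h : j = i
    · subst h
      rw [Pi.single_eq_same, XX_apply, h4, h4, hJ, hJ, dif_pos rfl, dif_pos rfl, Pi.single_add,
        Pi.single_smul, Pi.single_smul]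
    · have h5 : (Pi.single j (e j z) : ∀ i, V i) i = 0 := Pi.single_eq_of_ne (Ne.symm h) _
      rw [h5, map_zero, Pi.single_zero, hJ, hJ, dif_neg h, dif_neg h, zero_smul, zero_smul,
        add_zero]
  have hcoefupd : ∀ (I : κ → Σ i, R i) (p : κ) (z : Σ i, R i),
      f (Function.update (fun q => E (I q)) p (E z)) = coef f (Function.update I p z) := by
    intro I p z
    change _ = f (fun q => E (Function.update I p z q))
    congr 1
    funext q
    by_cases hq : q = p
    · subst hq
      rw [Function.update_self, Function.update_self]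
    · rw [Function.update_of_ne hq, Function.update_of_ne hq]
  have hkill : ∀ (b c : Σ i, R i), cls (inv' b) = cls c → ∀ I : κ → Σ i, R i,
      ∑ p, (JJ inv' jj' b (I p) * coef f (Function.update I p c) +
        JJ inv' jj' c (I p) * coef f (Function.update I p b)) = 0 := by
    rintro ⟨i, x⟩ ⟨j, y⟩ hbc I
    have hij : i = j := hbc
    subst hij
    rw [← hf i (e i x) (e i y) (fun q => E (I q))]
    refine Finset.sum_congr rfl fun p _ => ?_
    rw [hXE, MultilinearMap.map_update_add, MultilinearMap.map_update_smul,
      MultilinearMap.map_update_smul, hcoefupd, hcoefupd, smul_eq_mul, smul_eq_mul]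
  -- the components
  let Ft : (κ → ι) → (κ → Σ i, R i) → k := fun t I => if ∀ p, cls (I p) = t p then coef f I else 0
  have hFt : ∀ t, Ft t ∈ InvG cls inv' jj' κ t := by
    intro t
    refine ⟨fun b c hbc I => ?_, fun I hI p => ?_⟩
    · have key : ∀ (b c : Σ i, R i), cls (inv' b) = cls c → ∀ p,
          JJ inv' jj' b (I p) * Ft t (Function.update I p c) =
          if ∀ p, cls (I p) = t p then JJ inv' jj' b (I p) * coef f (Function.update I p c)
            else 0 := by
        intro b c hbc p
        by_cases hJ0 : JJ inv' jj' b (I p) = 0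
        · rw [hJ0, zero_mul, zero_mul, ite_self]
        · have h5 : cls (I p) = cls c := by
            by_contra h6
            apply hJ0
            unfold JJ
            rw [if_neg]
            intro h7
            apply h6
            rw [h7, hbc]
          have h6 : (∀ q, cls (Function.update I p c q) = t q) ↔ ∀ q, cls (I q) = t q := by
            refine forall_congr' fun q => ?_
            by_cases hq : q = p
            · subst hq
              rw [Function.update_self, h5]
            · rw [Function.update_of_ne hq]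
          change JJ inv' jj' b (I p) * (if ∀ q, cls (Function.update I p c q) = t q then _ else 0)
            = _
          by_cases h7 : ∀ q, cls (I q) = t q
          · rw [if_pos (h6.2 h7), if_pos h7]
          · rw [if_neg (fun h => h7 (h6.1 h)), if_neg h7, mul_zero]
      have h5 : ∀ p, JJ inv' jj' b (I p) * Ft t (Function.update I p c) +
          JJ inv' jj' c (I p) * Ft t (Function.update I p b) =
          if ∀ p, cls (I p) = t p then (JJ inv' jj' b (I p) * coef f (Function.update I p c) +
            JJ inv' jj' c (I p) * coef f (Function.update I p b)) else 0 := by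
        intro p
        rw [key b c hbc, key c b hbc.symm]
        split_ifs
        · rfl
        · rw [add_zero]
      rw [Finset.sum_congr rfl fun p _ => h5 p]
      by_cases h6 : ∀ p, cls (I p) = t p
      · simp only [if_pos h6]
        exact hkill b c hbc I
      · simp only [if_neg h6, Finset.sum_const_zero]
    · by_contra h5
      apply hI
      change (if ∀ p, cls (I p) = t p then _ else _) = _
      rw [if_neg]
      exact fun h => h5 (h p)
  have hsum : coef f = ∑ t : κ → ι, Ft t := by
    funext I
    rw [Finset.sum_apply, Finset.sum_eq_single (fun p => cls (I p))]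
    · change _ = if _ then _ else _
      rw [if_pos fun p => rfl]
    · intro t _ ht
      change (if _ then _ else _) = _
      rw [if_neg]
      intro h
      exact ht (funext fun p => (h p).symm)
    · intro h
      exact absurd (Finset.mem_univ _) h
  have hmem : coef f ∈ MatG cls inv' jj' κ m := by
    rw [hsum]
    exact Submodule.sum_mem _ fun t _ => fftG hinv' hjj' hj0' hcls m κ hκ t (hFt t)
  have hle : MatG cls inv' jj' κ m ≤ (Submodule.span k {g | ∃ (e : Fin m × Fin 2 ≃ κ)
      (c : Fin m → ι), g = pm ω e c}).map coef := by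
    unfold MatG
    rw [Submodule.span_le]
    rintro _ ⟨e', c, rfl⟩
    refine ⟨pm ω e' c, Submodule.subset_span ⟨e', c, rfl⟩, ?_⟩
    funext I
    change pm ω e' c (fun p => E (I p)) = _
    rw [pm_apply]
    unfold matG
    refine Finset.prod_congr rfl fun l _ => ?_
    have h5 : ∀ x y : Σ i, R i, ω (c l) (E x (c l)) (E y (c l)) =
        if cls x = c l then JJ inv' jj' x y else 0 := by
      rintro ⟨i, x⟩ ⟨j, y⟩
      rw [hE, hE]
      by_cases hi : i = c l
      · subst hi
        rw [if_pos rfl, Pi.single_eq_same, hJ]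
        by_cases hj : j = c l
        · subst hj
          rw [dif_pos rfl, Pi.single_eq_same, h4]
        · rw [dif_neg hj]
          have h6 : (Pi.single j (e j y) : ∀ i, V i) (c l) = 0 :=
            Pi.single_eq_of_ne (Ne.symm hj) _
          rw [h6, map_zero]
      · rw [if_neg hi]
        have h6 : (Pi.single i (e i x) : ∀ i, V i) (c l) = 0 := Pi.single_eq_of_ne (Ne.symm hi) _
        rw [h6, map_zero, LinearMap.zero_apply]
    exact h5 _ _
  obtain ⟨g, hg, hgf⟩ := hle hmem
  rw [← hinj hgf]
  exact hg

end multi

end Pool.Agent.L0h15.MN
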