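import Mathlib
import Pool.Agent.L0h15.MN.Fft

/-!
# From transvections to derivations; forms in an odd number of variables
-/

set_option autoImplicit false
set_option linter.unusedSectionVars false

namespace Pool.Agent.L0h15.MN

open Module Pool.Agent.H204R3.SP Pool.Agent.H204R3.CM Pool.Agent.H204R3.GP Polynomial

section deriv

variable {k : Type*} [Field k] [CharZero k] {W : Type*} [AddCommGroup W] [Module k W]
  {κ : Type*} [Fintype κ] [DecidableEq κ]

/-- invariance under the powers of a unipotent element of order two -/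
theorem kills_of_pow (f : MultilinearMap k (fun _ : κ => W) k) (X : End k W)
    (h : ∀ (m : ℕ) (v : κ → W), f (fun p => v p + (m : k) • X (v p)) = f v) : Kills X f := by
  intro v
  let P : k[X] := ∑ S : Finset κ, C (f (S.piecewise (fun p => X (v p)) v)) * Polynomial.X ^ S.card
    - C (f v)
  have hP : P = 0 := by
    refine Polynomial.eq_zero_of_infinite_isRoot P ?_
    refine Set.infinite_of_injective_forall_mem (f := fun t : ℕ => (t : k)) Nat.cast_injective ?_
    intro t
    change IsRoot _ _
    rw [IsRoot.def]
    simp only [P, eval_sub, eval_finsetSum, eval_mul, eval_C, eval_pow, eval_X]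
    rw [sub_eq_zero, ← h t v]
    have h1 : (fun p => v p + (t : k) • X (v p)) = (fun p => (t : k) • X (v p)) + v := by
      funext p
      rw [Pi.add_apply, add_comm]
    rw [h1, MultilinearMap.map_add_univ]
    refine Finset.sum_congr rfl fun S _ => ?_
    have h2 := f.map_piecewise_smul (fun _ => (t : k)) (S.piecewise (fun p => X (v p)) v) S
    have h3 : S.piecewise (fun i => (t : k) • (S.piecewise (fun p => X (v p)) v) i)
        (S.piecewise (fun p => X (v p)) v) = S.piecewise (fun p => (t : k) • X (v p)) v := by
      funext p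
      by_cases hp : p ∈ S
      · rw [Finset.piecewise_eq_of_mem _ _ _ hp, Finset.piecewise_eq_of_mem _ _ _ hp,
          Finset.piecewise_eq_of_mem _ _ _ hp]
      · rw [Finset.piecewise_eq_of_notMem _ _ _ hp, Finset.piecewise_eq_of_notMem _ _ _ hp,
          Finset.piecewise_eq_of_notMem _ _ _ hp]
    rw [h3, Finset.prod_const] at h2
    rw [h2, smul_eq_mul, mul_comm]
  have h1 := congrArg (fun p : k[X] => p.coeff 1) hP
  simp only [P, coeff_sub, finsetSum_coeff, coeff_C_mul, coeff_X_pow, coeff_zero] at h1
  rw [coeff_C, if_neg one_ne_zero, sub_zero] at h1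
  simp only [mul_ite, mul_one, mul_zero] at h1
  rw [← Finset.sum_filter] at h1
  have h2 : Finset.univ.filter (fun S : Finset κ => 1 = S.card) =
      (Finset.univ : Finset κ).map ⟨_, Finset.singleton_injective⟩ := by
    rw [← Finset.powersetCard_one, Finset.powersetCard_eq_filter, Finset.powerset_univ]
    ext S
    simp [eq_comm]
  rw [h2, Finset.sum_map] at h1
  rw [← h1]
  refine Finset.sum_congr rfl fun p _ => ?_
  congr 1
  funext q
  change _ = ({p} : Finset κ).piecewise (fun p => X (v p)) v q
  by_cases hq : q = p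
  · subst hq
    rw [Function.update_self, Finset.piecewise_eq_of_mem _ _ _ (Finset.mem_singleton_self q)]
  · rw [Function.update_of_ne hq, Finset.piecewise_eq_of_notMem _ _ _ (by
      rwa [Finset.mem_singleton])]

theorem Kills.add {X Y : End k W} {f : MultilinearMap k (fun _ : κ => W) k} (hX : Kills X f)
    (hY : Kills Y f) : Kills (X + Y) f := by
  intro v
  have h3 := congrArg₂ (fun x y : k => x + y) (hX v) (hY v)
  simp only [add_zero] at h3
  rw [← h3, ← Finset.sum_add_distrib]
  refine Finset.sum_congr rfl fun p _ => ?_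
  rw [LinearMap.add_apply, MultilinearMap.map_update_add]

theorem Kills.smul {X : End k W} {f : MultilinearMap k (fun _ : κ => W) k} (a : k)
    (hX : Kills X f) : Kills (a • X) f := by
  intro v
  rw [← mul_zero a, ← hX v, Finset.mul_sum]
  refine Finset.sum_congr rfl fun p _ => ?_
  rw [LinearMap.smul_apply, MultilinearMap.map_update_smul, smul_eq_mul]

theorem kills_zero (f : MultilinearMap k (fun _ : κ => W) k) : Kills (0 : End k W) f := by
  intro v
  refine Finset.sum_eq_zero fun p _ => ?_
  rw [LinearMap.zero_apply]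
  exact f.map_coord_zero p (Function.update_self _ _ _)

end deriv

section emb

variable {k : Type*} [Field k] [CharZero k] {ι : Type} [Fintype ι] [DecidableEq ι] {V : ι → Type}
  [∀ i, AddCommGroup (V i)] [∀ i, Module k (V i)] [∀ i, FiniteDimensional k (V i)]

/-- an endomorphism of `V i` as an endomorphism of the product -/
noncomputable def emb (i : ι) (X : End k (V i)) : End k (∀ i, V i) :=
  LinearMap.single k V i ∘ₗ X ∘ₗ LinearMap.proj i

theorem emb_apply (i : ι) (X : End k (V i)) (x : ∀ i, V i) :
    emb i X x = Pi.single i (X (x i)) := rfl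

theorem emb_add (i : ι) (X Y : End k (V i)) : emb i (X + Y) = emb i X + emb i Y := by
  refine LinearMap.ext fun x => ?_
  rw [LinearMap.add_apply, emb_apply, emb_apply, emb_apply, LinearMap.add_apply, Pi.single_add]

theorem emb_sub (i : ι) (X Y : End k (V i)) : emb i (X - Y) = emb i X - emb i Y := by
  refine LinearMap.ext fun x => ?_
  rw [LinearMap.sub_apply, emb_apply, emb_apply, emb_apply, LinearMap.sub_apply, Pi.single_sub]

theorem emb_smul (i : ι) (a : k) (X : End k (V i)) : emb i (a • X) = a • emb i X := by
  refine LinearMap.ext fun x => ?_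
  rw [LinearMap.smul_apply, emb_apply, emb_apply, LinearMap.smul_apply, Pi.single_smul]

theorem emb_zero (i : ι) : emb i (0 : End k (V i)) = 0 := by
  have h := emb_smul (k := k) (V := V) i 0 0
  rwa [zero_smul, zero_smul] at h

theorem emb_mul (i : ι) (X Y : End k (V i)) : emb i (X * Y) = emb i X * emb i Y := by
  refine LinearMap.ext fun x => ?_
  rw [Module.End.mul_apply, emb_apply, emb_apply, emb_apply, Pi.single_eq_same]
  rfl

/-- the endomorphisms of `V i` which kill a form -/
noncomputable def killSub {κ : Type} [Fintype κ] [DecidableEq κ]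
    (f : MultilinearMap k (fun _ : κ => ∀ i, V i) k) (i : ι) : Submodule k (End k (V i)) where
  carrier := {X | Kills (emb i X) f}
  zero_mem' := by
    change Kills (emb i 0) f
    rw [emb_zero]
    exact kills_zero f
  add_mem' := by
    intro X Y hX hY
    change Kills (emb i (X + Y)) f
    rw [emb_add]
    exact Kills.add hX hY
  smul_mem' := by
    intro a X hX
    change Kills (emb i (a • X)) f
    rw [emb_smul]
    exact Kills.smul a hX

theorem killSub_bracket {κ : Type} [Fintype κ] [DecidableEq κ]
    (f : MultilinearMap k (fun _ : κ => ∀ i, V i) k) (i : ι) :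
    ∀ X ∈ killSub f i, ∀ Y ∈ killSub f i, X * Y - Y * X ∈ killSub f i := by
  intro X hX Y hY
  change Kills (emb i (X * Y - Y * X)) f
  rw [emb_sub, emb_mul, emb_mul]
  exact kills_bracket hX hY

/-- Forms in an odd number of variables killed by the symplectic Lie algebras are zero. -/
theorem fft_odd (ω : ∀ i, V i →ₗ[k] V i →ₗ[k] k) (halt : ∀ i x, ω i x x = 0)
    (hnd : ∀ i x, (∀ y, ω i x y = 0) → x = 0) {κ : Type} [Fintype κ] [DecidableEq κ]
    (hκ : ¬ Even (Fintype.card κ)) (f : MultilinearMap k (fun _ : κ => ∀ i, V i) k)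
    (hf : ∀ (i : ι) (b c : V i) (v : κ → ∀ i, V i),
      ∑ p, f (Function.update v p (Pi.single i (XX (ω i) b c (v p i)))) = 0) : f = 0 := by
  classical
  choose R i1 i2 inv jj e h1 h2 h3 h4 using fun i => exists_symp (halt i) (hnd i)
  let E : Basis (Σ i, R i) k (∀ i, V i) := Pi.basis e
  have hE : ∀ x, E x = Pi.single x.1 (e x.1 x.2) := fun x => Pi.basis_apply e x
  let inv' : (Σ i, R i) → (Σ i, R i) := fun x => ⟨x.1, inv x.1 x.2⟩
  have hinv' : ∀ x, inv' (inv' x) = x := by
    rintro ⟨i, x⟩
    change (⟨i, inv i (inv i x)⟩ : Σ i, R i) = ⟨i, x⟩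
    rw [h1]
  have hne : ∀ i (x : R i), inv i x ≠ x := by
    intro i x h
    have h5 := h2 i x
    rw [h] at h5
    exact h3 i x (self_eq_neg.1 h5)
  have hne' : ∀ x, inv' x ≠ x := by
    rintro ⟨i, x⟩ h
    exact hne i x (eq_of_heq (Sigma.mk.inj_iff.1 h).2)
  refine Basis.ext_multilinear (fun _ => E) fun I => ?_
  rw [zero_apply]
  by_contra hF
  apply hκ
  set N : (Σ i, R i) → ℕ := fun x => (Finset.univ.filter (fun p => I p = x)).card with hN
  have hbal : ∀ x, N (inv' x) = N x := by
    rintro ⟨i, x⟩
    have h5 := hf i (e i x) (e i (inv i x)) (fun p => E (I p))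
    have h6 : ∀ p, f (Function.update (fun p => E (I p)) p
        (Pi.single i (XX (ω i) (e i x) (e i (inv i x)) (E (I p) i)))) =
        ((if I p = ⟨i, inv i x⟩ then jj i x else 0) - (if I p = ⟨i, x⟩ then jj i x else 0)) *
          f (fun p => E (I p)) := by
      intro p
      have h7 : (Pi.single i (XX (ω i) (e i x) (e i (inv i x)) (E (I p) i)) : ∀ i, V i) =
          ((if I p = ⟨i, inv i x⟩ then jj i x else 0) - (if I p = ⟨i, x⟩ then jj i x else 0)) •
            E (I p) := by
        generalize I p = z
        obtain ⟨j, z⟩ := z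
        rw [hE]
        by_cases h : j = i
        · subst h
          rw [Pi.single_eq_same, XX_apply, h4, h4, ← Pi.single_smul]
          congr 1
          unfold JJ
          by_cases hz1 : z = inv j x
          · subst hz1
            have h8 : ¬ ((⟨j, inv j x⟩ : Σ i, R i) = ⟨j, x⟩) := fun h =>
              hne j x (eq_of_heq (Sigma.mk.inj_iff.1 h).2)
            rw [if_pos rfl, if_pos rfl, if_neg h8, if_neg, zero_smul, add_zero, sub_zero]
            rw [h1]
            exact hne j x
          · rw [if_neg hz1, if_neg (fun h => hz1 (eq_of_heq (Sigma.mk.inj_iff.1 h).2)), zero_smul,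
              zero_add, h1]
            by_cases hz2 : z = x
            · subst hz2
              rw [if_pos rfl, if_pos rfl, h2, zero_sub]
            · rw [if_neg hz2, if_neg (fun h => hz2 (eq_of_heq (Sigma.mk.inj_iff.1 h).2)),
                sub_zero, zero_smul, zero_smul]
        · have h8 : (Pi.single j (e j z) : ∀ i, V i) i = 0 := Pi.single_eq_of_ne (Ne.symm h) _
          rw [h8, map_zero, Pi.single_zero, if_neg (fun h' => h (congrArg Sigma.fst h')),
            if_neg (fun h' => h (congrArg Sigma.fst h')), sub_zero, zero_smul]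
      rw [h7, MultilinearMap.map_update_smul, smul_eq_mul]
      congr 2
      exact Function.update_eq_self p (fun q => E (I q))
    rw [Finset.sum_congr rfl fun p _ => h6 p, ← Finset.sum_mul] at h5
    have h7 := (mul_eq_zero.1 h5).resolve_right hF
    rw [Finset.sum_sub_distrib, ← Finset.sum_filter, ← Finset.sum_filter, Finset.sum_const,
      Finset.sum_const, nsmul_eq_mul, nsmul_eq_mul, ← sub_mul] at h7
    have h8 := (mul_eq_zero.1 h7).resolve_right (h3 i x)
    rw [sub_eq_zero] at h8
    exact_mod_cast h8
  have hcard : Fintype.card κ = ∑ x, N x := by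
    rw [← Finset.card_univ]
    exact Finset.card_eq_sum_card_fiberwise (fun p _ => Finset.mem_univ _)
  rw [hcard, ← ZMod.natCast_eq_zero_iff_even, Nat.cast_sum]
  refine Finset.sum_involution (fun x _ => inv' x) ?_ ?_ ?_ ?_
  · intro x _
    rw [hbal, ← Nat.cast_add, ← two_mul, Nat.cast_mul]
    have : ((2 : ℕ) : ZMod 2) = 0 := rfl
    rw [this, zero_mul]
  · intro x _ _
    exact hne' x
  · intro x _
    exact Finset.mem_univ _
  · intro x _
    exact hinv' x

end emb

end Pool.Agent.L0h15.MN
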