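import Mathlib
import Pool.Agent.L0h15.MN.Inv

/-!
# Tate classes on products with an arbitrary representation
-/

set_option autoImplicit false
set_option linter.unusedSectionVars false

namespace Pool.Agent.L0h15.MN

open Module Pool.Agent.H204R3.SP Pool.Agent.H204R3.CM Pool.Agent.H204R3.GP

/-- `z` is fixed by the group in `M(c)` -/
def TateVec {k M Γ : Type*} [Field k] [AddCommGroup M] [Module k M] [Group Γ] (χ : Γ →* kˣ)
    (σ : Representation k Γ M) (c : ℤ) (z : M) : Prop :=
  ∀ s, ((χ s ^ c : kˣ) : k) • σ s z = z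

theorem rep_inv {k V Γ : Type*} [Field k] [AddCommGroup V] [Module k V] [Group Γ]
    (r : Representation k Γ V) (s : Γ) (x : V) : r s⁻¹ (r s x) = x := by
  rw [← Module.End.mul_apply, ← map_mul, inv_mul_cancel, map_one]
  rfl

theorem rep_inv' {k V Γ : Type*} [Field k] [AddCommGroup V] [Module k V] [Group Γ]
    (r : Representation k Γ V) (s : Γ) (x : V) : r s (r s⁻¹ x) = x := by
  rw [← Module.End.mul_apply, ← map_mul, mul_inv_cancel, map_one]
  rfl

theorem zpow_sum_eq {G : Type*} [CommGroup G] (g : G) {m : ℕ} (a : Fin m → ℤ) :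
    g ^ (∑ l, a l) = ∏ l, g ^ a l := by
  classical
  induction (Finset.univ : Finset (Fin m)) using Finset.induction_on with
  | empty => simp
  | insert i s hi ih => rw [Finset.sum_insert hi, Finset.prod_insert hi, zpow_add, ih]

variable {k : Type*} [Field k] [CharZero k] {ι : Type} [Fintype ι] [DecidableEq ι] {V : ι → Type}
  [∀ i, AddCommGroup (V i)] [∀ i, Module k (V i)] [∀ i, FiniteDimensional k (V i)]
  {Γ : Type*} [Group Γ] (r : ∀ i, Representation k Γ (V i)) (χ : Γ →* kˣ) (w : ι → ℤ)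
  (ω : ∀ i, V i →ₗ[k] V i →ₗ[k] k)

/-- A nontrivial transvection in the `i`-th factor, which acts trivially on everything else. -/
def Node {M : Type*} [AddCommGroup M] [Module k M] (σ : Representation k Γ M) (i : ι) : Prop :=
  ∃ s, χ s = 1 ∧ σ s = 1 ∧ (∀ j, j ≠ i → r j s = 1) ∧
    ∃ (u : V i) (a : k), u ≠ 0 ∧ a ≠ 0 ∧ ∀ x, r i s x = x + a • ω i u x • u

variable {r χ w ω}

theorem kills_node (halt : ∀ i x, ω i x x = 0)
    (hω : ∀ i s x y, ω i (r i s x) (r i s y) = ((χ s ^ (-w i) : kˣ) : k) * ω i x y)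
    {M : Type*} [AddCommGroup M] [Module k M] (σ : Representation k Γ M)
    {κ : Type} [Fintype κ] [DecidableEq κ] (c : ℤ)
    (f : MultilinearMap k (fun _ : κ => ∀ i, V i) M)
    (hf : ∀ s, ∀ v : κ → ∀ i, V i,
      f (fun p i => r i s (v p i)) = ((χ s ^ c : kˣ) : k) • σ s (f v))
    (i : ι) (s : Γ) (hχ : χ s = 1) (hσ : σ s = 1) (hj : ∀ j, j ≠ i → r j s = 1)
    (u : V i) (a : k) (ha : a ≠ 0) (hu : ∀ x, r i s x = x + a • ω i u x • u) (φ : M →ₗ[k] k)
    (δ : Γ) :
    Kills (emb i (XX (ω i) (r i δ u) (r i δ u))) (φ.compMultilinearMap f) := by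
  have hpow : ∀ (m : ℕ) x, r i (s ^ m) x = x + (m : k) • a • ω i u x • u := by
    intro m
    induction m with
    | zero =>
      intro x
      rw [pow_zero, map_one, Nat.cast_zero, zero_smul, add_zero]
      rfl
    | succ m ih =>
      intro x
      rw [pow_succ, map_mul, Module.End.mul_apply, hu, ih, map_add, map_smul, map_smul, halt,
        smul_zero, smul_zero, add_zero, Nat.cast_succ, add_smul, one_smul]
      abel
  set b : k := a * ((χ δ ^ w i : kˣ) : k) with hb
  have hb0 : b ≠ 0 := mul_ne_zero ha (Units.ne_zero _)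
  have hconj : ∀ (m : ℕ) x, r i (δ * s ^ m * δ⁻¹) x =
      x + (m : k) • b • ω i (r i δ u) x • r i δ u := by
    intro m x
    rw [map_mul, map_mul, Module.End.mul_apply, Module.End.mul_apply, hpow, map_add, rep_inv',
      map_smul, map_smul, map_smul]
    have h1 : ω i u (r i δ⁻¹ x) = ((χ δ ^ w i : kˣ) : k) * ω i (r i δ u) x := by
      have h2 := hω i δ⁻¹ (r i δ u) x
      rw [rep_inv] at h2
      rw [h2, map_inv, inv_zpow', neg_neg]
    rw [h1, hb, ← smul_smul, smul_smul a]
  have hother : ∀ (m : ℕ) (j : ι), j ≠ i → r j (δ * s ^ m * δ⁻¹) = 1 := by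
    intro m j hji
    rw [map_mul, map_mul, map_pow, hj j hji, one_pow, mul_one, ← map_mul, mul_inv_cancel, map_one]
  have h1 : Kills ((b / 2) • emb i (XX (ω i) (r i δ u) (r i δ u))) (φ.compMultilinearMap f) := by
    refine kills_of_pow _ _ fun m v => ?_
    rw [LinearMap.compMultilinearMap_apply, LinearMap.compMultilinearMap_apply]
    congr 1
    have h2 := hf (δ * s ^ m * δ⁻¹) v
    have h3 : χ (δ * s ^ m * δ⁻¹) = 1 := by
      rw [map_mul, map_mul, map_pow, hχ, one_pow, mul_one, ← map_mul, mul_inv_cancel, map_one]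
    have h4 : σ (δ * s ^ m * δ⁻¹) = 1 := by
      rw [map_mul, map_mul, map_pow, hσ, one_pow, mul_one, ← map_mul, mul_inv_cancel, map_one]
    rw [h3, h4, one_zpow, Units.val_one, one_smul] at h2
    refine Eq.trans ?_ h2
    congr 1
    funext p j
    rw [Pi.add_apply, Pi.smul_apply, LinearMap.smul_apply, Pi.smul_apply, emb_apply]
    by_cases hji : j = i
    · subst hji
      rw [Pi.single_eq_same, hconj, XX_apply, ← two_smul k, smul_smul (b / 2),
        div_mul_cancel₀ _ two_ne_zero]
    · rw [Pi.single_eq_of_ne hji, smul_zero, smul_zero, add_zero, hother m j hji]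
      rfl
  have h2 := Kills.smul (b / 2)⁻¹ h1
  rwa [smul_smul, inv_mul_cancel₀ (div_ne_zero hb0 two_ne_zero), one_smul] at h2

variable (r χ w ω) in
/-- the products of forms with Tate vectors -/
def Products {M : Type*} [AddCommGroup M] [Module k M] (σ : Representation k Γ M) (κ : Type)
    (c : ℤ) : Set (MultilinearMap k (fun _ : κ => ∀ i, V i) M) :=
  {g | ∃ (m : ℕ) (e : Fin m × Fin 2 ≃ κ) (d : Fin m → ι) (z : M),
    TateVec χ σ (c + ∑ l, w (d l)) z ∧ ∀ v,
      g v = (∏ l, ω (d l) (v (e (l, 0)) (d l)) (v (e (l, 1)) (d l))) • z}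

/-- **Tate classes on products with an arbitrary representation.** -/
theorem products (halt : ∀ i x, ω i x x = 0) (hnd : ∀ i x, (∀ y, ω i x y = 0) → x = 0)
    (hω : ∀ i s x y, ω i (r i s x) (r i s y) = ((χ s ^ (-w i) : kˣ) : k) * ω i x y)
    (hirr : ∀ i, ∀ H : Subgroup Γ, H.FiniteIndex → ∀ U : Submodule k (V i),
      (∀ h ∈ H, ∀ x ∈ U, r i h x ∈ U) → U = ⊥ ∨ U = ⊤)
    {M : Type*} [AddCommGroup M] [Module k M] [FiniteDimensional k M] (σ : Representation k Γ M)
    (hnode : ∀ i, Node r χ ω σ i)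
    {κ : Type} [Fintype κ] (c : ℤ)
    (f : MultilinearMap k (fun _ : κ => ∀ i, V i) M)
    (hf : ∀ s, ∀ v : κ → ∀ i, V i,
      f (fun p i => r i s (v p i)) = ((χ s ^ c : kˣ) : k) • σ s (f v)) :
    f ∈ Submodule.span k (Products χ w ω σ κ c) := by
  classical
  have hkill : ∀ (φ : M →ₗ[k] k) (i : ι) (b d : V i) (v : κ → ∀ i, V i),
      ∑ p, (φ.compMultilinearMap f) (Function.update v p
        (Pi.single i (XX (ω i) b d (v p i)))) = 0 := by
    intro φ i b d
    obtain ⟨s, hχ, hσ, hj, u, a, hu0, ha, hu⟩ := hnode i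
    have h1 : ∀ δ : Γ, XX (ω i) (r i δ u) (r i δ u) ∈ killSub (φ.compMultilinearMap f) i := by
      intro δ
      exact kills_node halt hω σ c f hf i s hχ hσ hj u a ha hu φ δ
    have h2 := generate (r i) (halt i) (hnd i)
      (fun δ => ((χ δ ^ (-w i) : kˣ) : k)) (fun δ => Units.ne_zero _)
      (fun δ x y => hω i δ x y) (hirr i) u hu0 (killSub (φ.compMultilinearMap f) i)
      (killSub_bracket _ i) h1 b d
    exact h2
  by_cases heven : Even (Fintype.card κ)
  swap
  · have h0 : f = 0 := by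
      refine MultilinearMap.ext fun v => ?_
      rw [zero_apply, ← Module.forall_dual_apply_eq_zero_iff k]
      intro φ
      have h1 := fft_odd ω halt hnd heven (φ.compMultilinearMap f) (hkill φ)
      have h2 := congrArg (fun g : MultilinearMap k (fun _ : κ => ∀ i, V i) k => g v) h1
      exact h2
    rw [h0]
    exact Submodule.zero_mem _
  obtain ⟨m, hm⟩ := heven
  have hm' : Fintype.card κ = 2 * m := by omega
  let pmf : (Fin m × Fin 2 ≃ κ) × (Fin m → ι) → MultilinearMap k (fun _ : κ => ∀ i, V i) k :=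
    fun x => pm ω x.1 x.2
  obtain ⟨B, a, ha, hsp, hli⟩ := exists_linearIndependent' k pmf
  have hB : Finite B := Finite.of_injective a ha
  have hBf : Fintype B := Fintype.ofFinite B
  have hφ : ∀ φ : M →ₗ[k] k, ∃ l : B → k, ∑ b, l b • pmf (a b) = φ.compMultilinearMap f := by
    intro φ
    have h1 := fft_multi ω halt hnd hm' (φ.compMultilinearMap f) (hkill φ)
    have h2 : {g | ∃ (e : Fin m × Fin 2 ≃ κ) (c : Fin m → ι), g = pm ω e c} =
        Set.range pmf := by
      ext g
      constructor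
      · rintro ⟨e, c, rfl⟩
        exact ⟨(e, c), rfl⟩
      · rintro ⟨⟨e, c⟩, rfl⟩
        exact ⟨e, c, rfl⟩
    rw [h2, ← hsp, Submodule.mem_span_range_iff_exists_fun] at h1
    exact h1
  let bM := Module.finBasis k M
  choose l hl using fun j => hφ (bM.coord j)
  let z : B → M := fun b => ∑ j, l j b • bM j
  have hfz : ∀ v, f v = ∑ b, pmf (a b) v • z b := by
    intro v
    refine bM.ext_elem fun j => ?_
    have h1 := congrArg (fun g : MultilinearMap k (fun _ : κ => ∀ i, V i) k => g v) (hl j)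
    have h2 : bM.repr (f v) j = ∑ b, l j b * pmf (a b) v := by
      have h3 : bM.repr (f v) j = (LinearMap.compMultilinearMap (bM.coord j) f) v := rfl
      rw [h3, ← hl j, sum_apply]
      exact Finset.sum_congr rfl fun b _ => rfl
    rw [h2, map_sum, Finset.sum_apply']
    refine Finset.sum_congr rfl fun b _ => ?_
    rw [map_smul, Finsupp.smul_apply, map_sum, Finset.sum_apply', smul_eq_mul, mul_comm]
    congr 1
    rw [Finset.sum_eq_single j]
    · rw [map_smul, Finsupp.smul_apply, Basis.repr_self, Finsupp.single_eq_same, smul_eq_mul,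
        mul_one]
    · intro j' _ hj'
      rw [map_smul, Finsupp.smul_apply, Basis.repr_self, Finsupp.single_eq_of_ne hj'.symm,
        smul_zero]
    · intro h
      exact absurd (Finset.mem_univ _) h
  have hpmf : ∀ (x : (Fin m × Fin 2 ≃ κ) × (Fin m → ι)) (s : Γ) (v : κ → ∀ i, V i),
      pmf x (fun p i => r i s (v p i)) = ((χ s ^ (-∑ l, w (x.2 l)) : kˣ) : k) * pmf x v := by
    intro x s v
    change pm ω x.1 x.2 _ = _ * pm ω x.1 x.2 v
    rw [pm_apply, pm_apply, ← Finset.sum_neg_distrib, zpow_sum_eq, Units.coe_prod,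
      ← Finset.prod_mul_distrib]
    exact Finset.prod_congr rfl fun l _ => hω _ _ _ _
  have htate : ∀ b, TateVec χ σ (c + ∑ l, w ((a b).2 l)) (z b) := by
    intro b
    intro s
    have h1 : ∀ b, ((χ s ^ (-∑ l, w ((a b).2 l)) : kˣ) : k) • z b -
        ((χ s ^ c : kˣ) : k) • σ s (z b) = 0 := by
      intro b
      rw [← Module.forall_dual_apply_eq_zero_iff k]
      intro φ
      have h2 : ∑ b, φ (((χ s ^ (-∑ l, w ((a b).2 l)) : kˣ) : k) • z b -
          ((χ s ^ c : kˣ) : k) • σ s (z b)) • (pmf ∘ a) b = 0 := by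
        refine MultilinearMap.ext fun v => ?_
        rw [sum_apply, zero_apply]
        have h3 := hf s v
        rw [hfz, hfz, map_sum, Finset.smul_sum, ← sub_eq_zero, ← Finset.sum_sub_distrib] at h3
        have h4 := congrArg φ h3
        rw [map_zero, map_sum] at h4
        rw [← h4]
        refine Finset.sum_congr rfl fun b _ => ?_
        rw [hpmf, smul_apply, smul_eq_mul, Function.comp_apply, map_smul (σ s),
          ← smul_smul, smul_comm _ (pmf (a b) v) (z b), smul_comm _ (pmf (a b) v) (σ s (z b)),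
          ← smul_sub, map_smul, smul_eq_mul, mul_comm]
      exact (Fintype.linearIndependent_iff.1 hli) _ h2 b
    have h2 := sub_eq_zero.1 (h1 b)
    rw [add_comm, zpow_add, Units.val_mul, mul_smul, ← h2, smul_smul, ← Units.val_mul, ← zpow_add,
      add_neg_cancel, zpow_zero, Units.val_one, one_smul]
  have hfsum : f = ∑ b, (pmf (a b)).smulRight (z b) := by
    refine MultilinearMap.ext fun v => ?_
    rw [hfz, sum_apply]
    rfl
  rw [hfsum]
  refine Submodule.sum_mem _ fun b _ => Submodule.subset_span ?_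
  exact ⟨m, (a b).1, (a b).2, z b, htate b, fun v => rfl⟩

end Pool.Agent.L0h15.MN
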