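import Mathlib

/-!
# Counting integers composed of few primes, and tuples of rational numbers
-/

set_option autoImplicit false
set_option linter.unusedSectionVars false

namespace Pool.Agent.L0h15.MN

open Finset

/-- the function `n ^ (- ε)` -/
noncomputable def powHom (ε : ℝ) : ℕ →* ℝ where
  toFun n := (n : ℝ) ^ (-ε)
  map_one' := by simp
  map_mul' := by
    intro m n
    push_cast
    rw [Real.mul_rpow (Nat.cast_nonneg m) (Nat.cast_nonneg n)]

theorem powHom_apply (ε : ℝ) (n : ℕ) : powHom ε n = (n : ℝ) ^ (-ε) := rfl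

theorem powHom_lt {ε : ℝ} (hε : 0 < ε) {p : ℕ} (hp : p.Prime) : powHom ε p < 1 := by
  rw [powHom_apply]
  exact Real.rpow_lt_one_of_one_lt_of_neg (by exact_mod_cast hp.one_lt) (by linarith)

theorem powHom_nonneg (ε : ℝ) (n : ℕ) : 0 ≤ powHom ε n := by
  rw [powHom_apply]
  positivity

theorem one_le_g {ε : ℝ} (hε : 0 < ε) {p : ℕ} (hp : p.Prime) : 1 ≤ (1 - powHom ε p)⁻¹ := by
  have h1 := powHom_lt hε hp
  have h2 := powHom_nonneg ε p
  rw [one_le_inv₀ (by linarith)]
  linarith

theorem exists_g_bound {ε : ℝ} (hε : 0 < ε) : ∃ (G : ℝ) (P₀ : ℕ), 1 ≤ G ∧ ∀ p : ℕ, p.Prime →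
    (1 - powHom ε p)⁻¹ ≤ (if p < P₀ then G else 1) * (p : ℝ) ^ ε := by
  refine ⟨(1 - powHom ε 2)⁻¹, ⌈(2 : ℝ) ^ (1 / ε)⌉₊, one_le_g hε Nat.prime_two, fun p hp => ?_⟩
  have hp1 : (1 : ℝ) ≤ (p : ℝ) := by exact_mod_cast hp.one_lt.le
  have hpe : (1 : ℝ) ≤ (p : ℝ) ^ ε := Real.one_le_rpow hp1 hε.le
  split_ifs with h
  · have h1 : powHom ε p ≤ powHom ε 2 := by
      rw [powHom_apply, powHom_apply]
      exact Real.rpow_le_rpow_of_nonpos (by norm_num) (by exact_mod_cast hp.two_le) (by linarith)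
    have h2 := powHom_lt hε Nat.prime_two
    have h3 : (1 - powHom ε p)⁻¹ ≤ (1 - powHom ε 2)⁻¹ := by
      apply inv_anti₀ <;> linarith
    have h4 : 0 ≤ (1 - powHom ε 2)⁻¹ := by
      rw [inv_nonneg]
      linarith
    calc (1 - powHom ε p)⁻¹ ≤ (1 - powHom ε 2)⁻¹ := h3
      _ ≤ (1 - powHom ε 2)⁻¹ * (p : ℝ) ^ ε := le_mul_of_one_le_right h4 hpe
  · push Not at h
    have h1 : (2 : ℝ) ^ (1 / ε) ≤ p := (Nat.le_ceil _).trans (by exact_mod_cast h)
    have h2 : (2 : ℝ) ≤ (p : ℝ) ^ ε := by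
      have h3 := Real.rpow_le_rpow (by positivity) h1 hε.le
      rwa [← Real.rpow_mul (by norm_num), one_div, inv_mul_cancel₀ hε.ne', Real.rpow_one] at h3
    have h3 : powHom ε p ≤ 1 / 2 := by
      rw [powHom_apply, Real.rpow_neg (by positivity), one_div]
      exact inv_anti₀ (by norm_num) h2
    rw [one_mul]
    calc (1 - powHom ε p)⁻¹ ≤ (1 / 2 : ℝ)⁻¹ := by
          apply inv_anti₀ <;> linarith
      _ = 2 := by norm_num
      _ ≤ _ := h2

/-- the integers up to `x` all of whose prime factors are in `T` or divide `N` -/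
noncomputable def smooth (T : Finset ℕ) (N x : ℕ) : Finset ℕ := by
  classical
  exact (Finset.Icc 1 x).filter (fun n => ∀ p, p.Prime → p ∣ n → p ∈ T ∨ p ∣ N)

theorem mem_smooth {T : Finset ℕ} {N x n : ℕ} : n ∈ smooth T N x ↔
    (1 ≤ n ∧ n ≤ x) ∧ ∀ p, p.Prime → p ∣ n → p ∈ T ∨ p ∣ N := by
  classical
  unfold smooth
  rw [Finset.mem_filter, Finset.mem_Icc]

/-- **The number of integers composed of few primes.** -/
theorem card_smooth (T : Finset ℕ) {ε : ℝ} (hε : 0 < ε) : ∃ C : ℝ, 0 ≤ C ∧ ∀ N x : ℕ, 1 ≤ N →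
    ((smooth T N x).card : ℝ) ≤ C * ((x : ℝ) * N) ^ ε := by
  classical
  obtain ⟨G, P₀, hG, hg⟩ := exists_g_bound hε
  set T' := T.filter Nat.Prime with hT'
  refine ⟨(∏ p ∈ T', (1 - powHom ε p)⁻¹) * G ^ P₀, ?_, fun N x hN => ?_⟩
  · refine mul_nonneg (Finset.prod_nonneg fun p hp => ?_) (by positivity)
    have := one_le_g hε (Finset.mem_filter.1 hp).2
    linarith
  set S := T ∪ N.primeFactors with hS
  obtain ⟨-, hsum⟩ := EulerProduct.summable_and_hasSum_factoredNumbers_prod_filter_prime_geometric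
    (f := powHom ε) (fun {p} hp => by
      rw [Real.norm_of_nonneg (powHom_nonneg ε p)]
      exact powHom_lt hε hp) S
  rcases Nat.eq_zero_or_pos x with hx | hx
  · have h1 : smooth T N x = ∅ := by
      apply Finset.eq_empty_of_forall_notMem
      intro n hn
      rw [mem_smooth] at hn
      omega
    rw [h1, Finset.card_empty, Nat.cast_zero]
    refine mul_nonneg (mul_nonneg (Finset.prod_nonneg fun p hp => ?_) (by positivity))
      (by positivity)
    have := one_le_g hε (Finset.mem_filter.1 hp).2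
    linarith
  have hx0 : (0 : ℝ) < x := by exact_mod_cast hx
  -- step 1
  have h1 : ((smooth T N x).card : ℝ) ≤ (x : ℝ) ^ ε * ∑ n ∈ smooth T N x, powHom ε n := by
    rw [Finset.mul_sum, Finset.card_eq_sum_ones, Nat.cast_sum]
    refine Finset.sum_le_sum fun n hn => ?_
    rw [mem_smooth] at hn
    have hn0 : (0 : ℝ) < n := by exact_mod_cast hn.1.1
    have hnx : (n : ℝ) ≤ x := by exact_mod_cast hn.1.2
    rw [powHom_apply, Real.rpow_neg hn0.le, ← div_eq_mul_inv, ← Real.div_rpow hx0.le hn0.le,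
      Nat.cast_one]
    exact Real.one_le_rpow ((one_le_div hn0).2 hnx) hε.le
  have h2 : ∑ n ∈ smooth T N x, powHom ε n ≤ ∏ p ∈ S with p.Prime, (1 - powHom ε p)⁻¹ := by
    have h3 : HasSum ((Nat.factoredNumbers S).indicator (powHom ε))
        (∏ p ∈ S with p.Prime, (1 - powHom ε p)⁻¹) := by
      rw [← hasSum_subtype_iff_indicator]
      exact hsum
    have h4 := sum_le_hasSum (smooth T N x) (fun n _ =>
      Set.indicator_nonneg (fun m _ => powHom_nonneg ε m) n) h3
    refine le_trans (le_of_eq ?_) h4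
    refine Finset.sum_congr rfl fun n hn => ?_
    rw [Set.indicator_of_mem]
    rw [Nat.mem_factoredNumbers']
    intro p hp hpn
    rcases (mem_smooth.1 hn).2 p hp hpn with h | h
    · exact Finset.mem_union_left _ h
    · exact Finset.mem_union_right _ (Nat.mem_primeFactors.2 ⟨hp, h, by omega⟩)
  have hfil : S.filter Nat.Prime = T' ∪ N.primeFactors := by
    rw [hS, Finset.filter_union, hT']
    congr 1
    exact Finset.filter_true_of_mem fun p hp => Nat.prime_of_mem_primeFactors hp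
  have h3 : ∏ p ∈ S with p.Prime, (1 - powHom ε p)⁻¹ ≤
      (∏ p ∈ T', (1 - powHom ε p)⁻¹) * ∏ p ∈ N.primeFactors, (1 - powHom ε p)⁻¹ := by
    rw [hfil, ← Finset.union_sdiff_self_eq_union, Finset.prod_union Finset.disjoint_sdiff]
    have h5 : ∏ p ∈ N.primeFactors \ T', (1 - powHom ε p)⁻¹ ≤
        ∏ p ∈ N.primeFactors, (1 - powHom ε p)⁻¹ := by
      rw [← Finset.prod_sdiff (Finset.sdiff_subset (s := N.primeFactors) (t := T'))]
      have h6 : (1 : ℝ) ≤ ∏ p ∈ N.primeFactors \ (N.primeFactors \ T'), (1 - powHom ε p)⁻¹ := by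
        refine Finset.prod_induction _ (fun y : ℝ => 1 ≤ y)
          (fun a b ha hb => one_le_mul_of_one_le_of_one_le ha hb) le_rfl fun p hp => ?_
        exact one_le_g hε (Nat.prime_of_mem_primeFactors (Finset.mem_sdiff.1 hp).1)
      refine le_mul_of_one_le_left (Finset.prod_nonneg fun p hp => ?_) h6
      have := one_le_g hε (Nat.prime_of_mem_primeFactors (Finset.mem_sdiff.1 hp).1)
      linarith
    refine mul_le_mul_of_nonneg_left h5 (Finset.prod_nonneg fun p hp => ?_)
    have := one_le_g hε (Finset.mem_filter.1 hp).2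
    linarith
  have h4 : ∏ p ∈ N.primeFactors, (1 - powHom ε p)⁻¹ ≤ G ^ P₀ * (N : ℝ) ^ ε := by
    calc ∏ p ∈ N.primeFactors, (1 - powHom ε p)⁻¹
        ≤ ∏ p ∈ N.primeFactors, ((if p < P₀ then G else 1) * (p : ℝ) ^ ε) := by
          refine Finset.prod_le_prod (fun p hp => ?_) fun p hp =>
            hg p (Nat.prime_of_mem_primeFactors hp)
          have := one_le_g hε (Nat.prime_of_mem_primeFactors hp)
          linarith
      _ = (∏ p ∈ N.primeFactors, (if p < P₀ then G else 1)) *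
            ∏ p ∈ N.primeFactors, (p : ℝ) ^ ε := Finset.prod_mul_distrib
      _ ≤ G ^ P₀ * (N : ℝ) ^ ε := by
          have h5 : ∏ p ∈ N.primeFactors, (if p < P₀ then G else 1) ≤ G ^ P₀ := by
            rw [Finset.prod_ite, Finset.prod_const_one, mul_one, Finset.prod_const]
            refine pow_le_pow_right₀ hG ?_
            calc _ ≤ (Finset.range P₀).card := Finset.card_le_card fun p hp => by
                  rw [Finset.mem_filter] at hp
                  exact Finset.mem_range.2 hp.2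
              _ = P₀ := Finset.card_range P₀
          have h6 : ∏ p ∈ N.primeFactors, (p : ℝ) ^ ε ≤ (N : ℝ) ^ ε := by
            rw [Real.finsetProd_rpow _ _ (fun p _ => Nat.cast_nonneg p)]
            refine Real.rpow_le_rpow (by positivity) ?_ hε.le
            rw [← Nat.cast_prod]
            exact_mod_cast Nat.le_of_dvd (by omega) (Nat.prod_primeFactors_dvd N)
          exact mul_le_mul h5 h6 (by positivity) (by positivity)
  have hT0 : 0 ≤ ∏ p ∈ T', (1 - powHom ε p)⁻¹ := by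
    refine Finset.prod_nonneg fun p hp => ?_
    have := one_le_g hε (Finset.mem_filter.1 hp).2
    linarith
  calc ((smooth T N x).card : ℝ) ≤ (x : ℝ) ^ ε * ∑ n ∈ smooth T N x, powHom ε n := h1
    _ ≤ (x : ℝ) ^ ε * ((∏ p ∈ T', (1 - powHom ε p)⁻¹) * (G ^ P₀ * (N : ℝ) ^ ε)) := by
        refine mul_le_mul_of_nonneg_left ?_ (by positivity)
        exact (h2.trans h3).trans (mul_le_mul_of_nonneg_left h4 hT0)
    _ = (∏ p ∈ T', (1 - powHom ε p)⁻¹) * G ^ P₀ * ((x : ℝ) * N) ^ ε := by
        rw [Real.mul_rpow hx0.le (Nat.cast_nonneg N)]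
        ring

end Pool.Agent.L0h15.MN
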