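import Mathlib

/-!
# Regular nilpotent endomorphisms, and the determinant of a Frobenius element on their kernels
-/

set_option autoImplicit false
set_option linter.unusedSectionVars false

namespace Pool.Agent.L0h15.MN

open Module

section reg

variable {k V : Type*} [Field k] [AddCommGroup V] [Module k V] [FiniteDimensional k V]

/-- `u` is nilpotent with one Jordan block. -/
def OneBlock (u : End k V) : Prop := u ^ finrank k V = 0 ∧ u ^ (finrank k V - 1) ≠ 0

theorem OneBlock.pos {u : End k V} (h : OneBlock u) : 0 < finrank k V := by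
  rw [Nat.pos_iff_ne_zero]
  intro h0
  have h1 := h.1
  have h2 := h.2
  rw [h0] at h1 h2
  exact h2 h1

theorem OneBlock.ker_lt {u : End k V} (h : OneBlock u) {i : ℕ} (hi : i < finrank k V) :
    LinearMap.ker (u ^ i) < LinearMap.ker (u ^ (i + 1)) := by
  refine lt_of_le_of_ne ?_ ?_
  · intro x hx
    rw [LinearMap.mem_ker] at *
    rw [pow_succ', Module.End.mul_apply, hx, map_zero]
  · intro heq
    have h1 := Module.End.ker_pow_constant heq
    have h2 := h1 (finrank k V - 1 - i)
    have h3 := h1 (finrank k V - i)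
    have h4 : i + (finrank k V - i) = finrank k V := by omega
    have h5 : i + (finrank k V - 1 - i) = finrank k V - 1 := by omega
    rw [h4, h.1, LinearMap.ker_zero] at h3
    rw [h5, h3] at h2
    exact h.2 (LinearMap.ker_eq_top.1 h2.symm)

theorem OneBlock.finrank_ker {u : End k V} (h : OneBlock u) :
    ∀ i ≤ finrank k V, finrank k (LinearMap.ker (u ^ i)) = i := by
  have h1 : ∀ i ≤ finrank k V, i ≤ finrank k (LinearMap.ker (u ^ i)) := by
    intro i
    induction i with
    | zero => intro _; exact Nat.zero_le _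
    | succ i ih =>
      intro hi
      have h2 := Submodule.finrank_lt_finrank_of_lt (h.ker_lt (i := i) (by omega))
      have h3 := ih (by omega)
      omega
  have h2 : ∀ j ≤ finrank k V, finrank k (LinearMap.ker (u ^ (finrank k V - j))) ≤
      finrank k V - j := by
    intro j
    induction j with
    | zero =>
      intro _
      exact Submodule.finrank_le _
    | succ j ih =>
      intro hj
      have h2 := Submodule.finrank_lt_finrank_of_lt (h.ker_lt (i := finrank k V - (j + 1))
        (by omega))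
      have h3 := ih (by omega)
      have h4 : finrank k V - (j + 1) + 1 = finrank k V - j := by omega
      rw [h4] at h2
      omega
  intro i hi
  refine le_antisymm ?_ (h1 i hi)
  have h3 := h2 (finrank k V - i) (by omega)
  have h4 : finrank k V - (finrank k V - i) = i := by omega
  rwa [h4] at h3

theorem OneBlock.range_eq {u : End k V} (h : OneBlock u) {i : ℕ} (hi : i ≤ finrank k V) :
    LinearMap.range (u ^ (finrank k V - i)) = LinearMap.ker (u ^ i) := by
  refine Submodule.eq_of_le_of_finrank_eq ?_ ?_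
  · rintro _ ⟨x, rfl⟩
    rw [LinearMap.mem_ker, ← Module.End.mul_apply, ← pow_add,
      show i + (finrank k V - i) = finrank k V by omega, h.1]
    rfl
  · have h1 := LinearMap.finrank_range_add_finrank_ker (u ^ (finrank k V - i))
    have h2 := h.finrank_ker (finrank k V - i) (by omega)
    rw [h.finrank_ker i hi]
    omega

/-- A stable subspace is the kernel of a power. -/
theorem OneBlock.stable_eq {u : End k V} (h : OneBlock u) (U : Submodule k V)
    (hU : ∀ x ∈ U, u x ∈ U) : U = LinearMap.ker (u ^ finrank k U) := by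
  have hle : finrank k U ≤ finrank k V := Submodule.finrank_le U
  refine Submodule.eq_of_le_of_finrank_eq ?_ (h.finrank_ker _ hle).symm
  intro x hx
  have hpow : ∀ (m : ℕ) (y : U), ((((u.restrict hU) ^ m) y : U) : V) = (u ^ m) (y : V) := by
    intro m
    induction m with
    | zero => intro y; rfl
    | succ m ih =>
      intro y
      rw [pow_succ, pow_succ, Module.End.mul_apply, Module.End.mul_apply, ih]
      rfl
  have h1 : (u.restrict hU) ^ finrank k V = 0 := by
    ext y
    rw [hpow, h.1]
    rfl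
  have h2 := Module.End.ker_pow_eq_ker_pow_finrank_of_le (f := u.restrict hU) hle
  rw [h1, LinearMap.ker_zero] at h2
  have h3 : (⟨x, hx⟩ : U) ∈ LinearMap.ker ((u.restrict hU) ^ finrank k U) := by
    rw [← h2]
    exact Submodule.mem_top
  rw [LinearMap.mem_ker] at h3 ⊢
  have h4 := hpow (finrank k U) ⟨x, hx⟩
  rw [h3] at h4
  exact h4.symm

/-- the sum `1 + τ + ... + τ ^ (m - 1)` -/
noncomputable def gs (τ : End k V) (m : ℕ) : End k V := ∑ j ∈ Finset.range m, τ ^ j

theorem gs_comm (τ : End k V) (m : ℕ) : Commute (τ - 1) (gs τ m) := by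
  unfold gs
  refine Commute.sum_right _ _ _ fun j _ => ?_
  exact ((Commute.refl τ).sub_left (Commute.one_left τ)).pow_right j

theorem gs_mul (τ : End k V) (m : ℕ) : (τ - 1) * gs τ m = τ ^ m - 1 := mul_geom_sum τ m

theorem gs_injective [CharZero k] {τ : End k V} (h : OneBlock (τ - 1)) {m : ℕ} (hm : 0 < m) :
    ∀ x, gs τ m x = 0 → x = 0 := by
  intro x hx
  by_contra hx0
  classical
  have hex : ∃ j : ℕ, ((τ - 1) ^ j : End k V) x = 0 := ⟨finrank k V, by rw [h.1]; rfl⟩
  have h1 := Nat.find_spec hex
  set j := Nat.find hex with hj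
  have hj0 : j ≠ 0 := by
    intro h0
    rw [h0] at h1
    exact hx0 h1
  obtain ⟨i, hi⟩ := Nat.exists_eq_succ_of_ne_zero hj0
  have h2 : ((τ - 1) ^ i) x ≠ 0 := Nat.find_min hex (by omega)
  set y := ((τ - 1) ^ i) x with hy
  have h3 : (τ - 1) y = 0 := by
    rw [hy, ← Module.End.mul_apply, ← pow_succ']
    rw [hi] at h1
    exact h1
  have h4 : τ y = y := by
    rw [LinearMap.sub_apply, sub_eq_zero] at h3
    exact h3
  have h5 : ∀ j : ℕ, (τ ^ j) y = y := by
    intro j
    induction j with
    | zero => rfl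
    | succ j ih => rw [pow_succ, Module.End.mul_apply, h4, ih]
  have h6 : gs τ m y = (m : k) • y := by
    unfold gs
    rw [LinearMap.sum_apply]
    simp only [h5]
    rw [Finset.sum_const, Finset.card_range, Nat.cast_smul_eq_nsmul]
  have h7 : gs τ m y = 0 := by
    have h8 : Commute ((τ - 1) ^ i) (gs τ m) := (gs_comm τ m).pow_left i
    have h9 : gs τ m y = ((τ - 1) ^ i) (gs τ m x) := by
      rw [hy, ← Module.End.mul_apply, ← Module.End.mul_apply, h8.eq]
    rw [h9, hx, map_zero]
  rw [h7] at h6
  rcases smul_eq_zero.1 h6.symm with h8 | h8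
  · exact absurd (by exact_mod_cast h8) hm.ne'
  · exact h2 h8

theorem ker_gs [CharZero k] {τ : End k V} (h : OneBlock (τ - 1)) {m : ℕ} (hm : 0 < m) (i : ℕ) :
    LinearMap.ker ((τ ^ m - 1) ^ i) = LinearMap.ker ((τ - 1) ^ i) := by
  have hinj := gs_injective h hm
  have hinj' : ∀ (j : ℕ) (x : V), ((gs τ m) ^ j) x = 0 → x = 0 := by
    intro j
    induction j with
    | zero => intro x hx; exact hx
    | succ j ih =>
      intro x hx
      rw [pow_succ', Module.End.mul_apply] at hx
      exact ih x (hinj _ hx)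
  rw [← gs_mul, (gs_comm τ m).mul_pow, ((gs_comm τ m).pow_pow i i).eq]
  ext x
  rw [LinearMap.mem_ker, LinearMap.mem_ker, Module.End.mul_apply]
  exact ⟨fun h => hinj' i _ h, fun h => by rw [h, map_zero]⟩

theorem OneBlock.pow [CharZero k] {τ : End k V} (h : OneBlock (τ - 1)) {m : ℕ} (hm : 0 < m) :
    OneBlock (τ ^ m - 1) := by
  refine ⟨?_, fun h0 => h.2 ?_⟩
  · have h1 := ker_gs h hm (finrank k V)
    rw [h.1, LinearMap.ker_zero] at h1
    exact LinearMap.ker_eq_top.1 h1
  · have h1 := ker_gs h hm (finrank k V - 1)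
    rw [h0, LinearMap.ker_zero] at h1
    exact LinearMap.ker_eq_top.1 h1.symm

/-- A subspace stable under a power of `τ` is the kernel of a power of `τ - 1`. -/
theorem OneBlock.stable_pow [CharZero k] {τ : End k V} (h : OneBlock (τ - 1)) {m : ℕ} (hm : 0 < m)
    (U : Submodule k V) (hU : ∀ x ∈ U, (τ ^ m) x ∈ U) :
    U = LinearMap.ker ((τ - 1) ^ finrank k U) := by
  rw [← ker_gs h hm]
  refine (h.pow hm).stable_eq U fun x hx => ?_
  rw [LinearMap.sub_apply]
  exact U.sub_mem (hU x hx) hx

end reg

section det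

variable {k W : Type*} [Field k] [AddCommGroup W] [Module k W] [FiniteDimensional k W]

theorem det_sq (β : W →ₗ[k] W →ₗ[k] k) (hβ : ∀ x, (∀ y, β x y = 0) → x = 0) (T S : End k W)
    (c : k) (h : ∀ x y, β (T x) (T y) = c * β x (S y)) :
    LinearMap.det T ^ 2 = c ^ finrank k W * LinearMap.det S := by
  classical
  let b := Module.finBasis k W
  have hnd : (LinearMap.BilinForm.toMatrix b β).det ≠ 0 := by
    intro h0
    obtain ⟨v, hv, hv0⟩ := Matrix.exists_vecMul_eq_zero_iff.2 h0
    apply hv
    have h1 : b.equivFun.symm v = 0 := by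
      refine hβ _ fun y => ?_
      have h3 := LinearMap.BilinForm.apply_eq_dotProduct_toMatrix_mulVec b β (b.equivFun.symm v) y
      rw [h3, Matrix.dotProduct_mulVec]
      have h4 : (b.repr (b.equivFun.symm v) : Fin (finrank k W) → k) = v := by
        rw [← Basis.equivFun_apply, LinearEquiv.apply_symm_apply]
      rw [h4, hv0, zero_dotProduct]
    have h2 := congrArg b.equivFun h1
    rwa [LinearEquiv.apply_symm_apply, map_zero] at h2
  have h1 : (LinearMap.BilinForm.comp β T T : LinearMap.BilinForm k W) =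
      c • (LinearMap.BilinForm.compRight β S) := by
    ext x y
    exact h x y
  have h2 := congrArg (LinearMap.BilinForm.toMatrix b) h1
  rw [LinearMap.BilinForm.toMatrix_comp b b, map_smul, LinearMap.BilinForm.toMatrix_compRight] at h2
  have h3 := congrArg Matrix.det h2
  rw [Matrix.det_mul, Matrix.det_mul, Matrix.det_transpose, Matrix.det_smul, Matrix.det_mul,
    Fintype.card_fin, LinearMap.det_toMatrix, LinearMap.det_toMatrix] at h3
  have h4 : (LinearMap.BilinForm.toMatrix b β).det *
      (LinearMap.det T ^ 2 - c ^ finrank k W * LinearMap.det S) = 0 := by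
    linear_combination h3
  rcases mul_eq_zero.1 h4 with h5 | h5
  · exact absurd h5 hnd
  · exact sub_eq_zero.1 h5

theorem det_of_nilpotent {T : End k W} {a : k} (h : IsNilpotent (T - a • 1)) :
    LinearMap.det T = a ^ finrank k W := by
  classical
  have h1 := IsNilpotent.charpoly_eq_X_pow_finrank (φ := -(T - a • 1)) h.neg
  let b := Module.finBasis k W
  have h2 : (LinearMap.toMatrix b b (-(T - a • 1))).charpoly = Polynomial.X ^ finrank k W := by
    rw [LinearMap.charpoly_toMatrix, h1]
  have h3 := Matrix.eval_charpoly (LinearMap.toMatrix b b (-(T - a • 1))) a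
  rw [h2, Polynomial.eval_pow, Polynomial.eval_X] at h3
  rw [h3, ← LinearMap.det_toMatrix b T]
  congr 1
  rw [map_neg, map_sub, map_smul, LinearMap.toMatrix_one]
  simp only [Matrix.scalar_apply]
  rw [← Matrix.smul_one_eq_diagonal]
  abel

end det

section frob

variable {k V : Type*} [Field k] [CharZero k] [AddCommGroup V] [Module k V]
  [FiniteDimensional k V]

theorem gs_nilpotent {τ : End k V} (h : IsNilpotent (τ - 1)) (m : ℕ) :
    IsNilpotent (gs τ m - (m : k) • 1) := by
  have h1 : gs τ m - (m : k) • 1 = (τ - 1) * ∑ j ∈ Finset.range m, gs τ j := by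
    rw [Finset.mul_sum]
    simp only [gs_mul]
    rw [Finset.sum_sub_distrib, Finset.sum_const, Finset.card_range, Nat.cast_smul_eq_nsmul]
    rfl
  rw [h1]
  refine Commute.isNilpotent_mul_right ?_ h
  exact Commute.sum_right _ _ _ fun j _ => gs_comm τ j

theorem restrict_pow {f : End k V} {W : Submodule k V} (hf : ∀ x ∈ W, f x ∈ W) (m : ℕ) (y : W) :
    ((((f.restrict hf) ^ m) y : W) : V) = (f ^ m) (y : V) := by
  induction m generalizing y with
  | zero => rfl
  | succ m ih =>
    rw [pow_succ, pow_succ, Module.End.mul_apply, Module.End.mul_apply, ih]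
    rfl

theorem perp_of {τ τ' : End k V} (hτ' : τ * τ' = 1) (hc : τ' * τ = 1) (ω : V →ₗ[k] V →ₗ[k] k)
    (hω : ∀ x y, ω (τ x) (τ y) = ω x y) (m : ℕ) :
    ∀ z v, ((τ - 1) ^ m) z = 0 → ω z (((τ - 1) ^ m) v) = 0 := by
  have hadj : ∀ z v, ω z ((τ - 1) v) = ω (-(τ' ((τ - 1) z))) v := by
    intro z v
    have h1 : ω z (τ v) = ω (τ' z) v := by
      rw [← hω (τ' z) v, ← Module.End.mul_apply, hτ']
      rfl
    have h2 : τ' ((τ - 1) z) = z - τ' z := by
      rw [LinearMap.sub_apply, map_sub, ← Module.End.mul_apply, hc]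
      rfl
    rw [h2, LinearMap.sub_apply, map_sub, h1, neg_sub, map_sub, LinearMap.sub_apply]
    rfl
  have hcomm : Commute (τ - 1) τ' := by
    refine Commute.sub_left ?_ (Commute.one_left _)
    exact hτ'.trans hc.symm
  induction m with
  | zero =>
    intro z v hz
    have h0 : z = 0 := hz
    rw [h0, map_zero, LinearMap.zero_apply]
  | succ m ih =>
    intro z v hz
    rw [pow_succ', Module.End.mul_apply, hadj]
    refine ih _ _ ?_
    rw [map_neg, ← Module.End.mul_apply, (hcomm.pow_left m).eq, Module.End.mul_apply,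
      ← Module.End.mul_apply ((τ - 1) ^ m), ← pow_succ, hz, map_zero, neg_zero]

theorem of_perp {τ τ' : End k V} (hτ' : τ * τ' = 1) (hc : τ' * τ = 1) (ω : V →ₗ[k] V →ₗ[k] k)
    (hnd : ∀ x, (∀ y, ω x y = 0) → x = 0)
    (hω : ∀ x y, ω (τ x) (τ y) = ω x y) (m : ℕ) :
    ∀ z, (∀ v, ω z (((τ - 1) ^ m) v) = 0) → ((τ - 1) ^ m) z = 0 := by
  have hadj : ∀ z v, ω z ((τ - 1) v) = ω (-(τ' ((τ - 1) z))) v := by
    intro z v
    have h1 : ω z (τ v) = ω (τ' z) v := by
      rw [← hω (τ' z) v, ← Module.End.mul_apply, hτ']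
      rfl
    have h2 : τ' ((τ - 1) z) = z - τ' z := by
      rw [LinearMap.sub_apply, map_sub, ← Module.End.mul_apply, hc]
      rfl
    rw [h2, LinearMap.sub_apply, map_sub, h1, neg_sub, map_sub, LinearMap.sub_apply]
    rfl
  have hcomm : Commute (τ - 1) τ' := by
    refine Commute.sub_left ?_ (Commute.one_left _)
    exact hτ'.trans hc.symm
  induction m with
  | zero =>
    intro z hz
    exact hnd z hz
  | succ m ih =>
    intro z hz
    have h1 : ((τ - 1) ^ m) (-(τ' ((τ - 1) z))) = 0 := by
      refine ih _ fun v => ?_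
      rw [← hadj, ← Module.End.mul_apply, ← pow_succ']
      exact hz v
    rw [map_neg, neg_eq_zero, ← Module.End.mul_apply, (hcomm.pow_left m).eq,
      Module.End.mul_apply, ← Module.End.mul_apply ((τ - 1) ^ m), ← pow_succ] at h1
    have h2 := congrArg τ h1
    rwa [← Module.End.mul_apply, hτ', map_zero] at h2

/-- **The determinant of a Frobenius element on the kernels of the powers of a regular unipotent
monodromy operator.** -/
theorem det_ker {τ τ' F F' : End k V} {p : ℕ} (hτ : OneBlock (τ - 1))
    (hττ : τ * τ' = 1) (hττ' : τ' * τ = 1) (hF : F * F' = 1) (hF' : F' * F = 1)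
    (hFτ : F * τ = τ ^ p * F) (ω : V →ₗ[k] V →ₗ[k] k) (hnd : ∀ x, (∀ y, ω x y = 0) → x = 0)
    (hω : ∀ x y, ω (τ x) (τ y) = ω x y) (c : k) (hωF : ∀ x y, ω (F x) (F y) = c * ω x y)
    {i : ℕ} (hi : i ≤ finrank k V)
    (hFW : ∀ x ∈ LinearMap.ker ((τ - 1) ^ i), F x ∈ LinearMap.ker ((τ - 1) ^ i)) :
    LinearMap.det (F.restrict hFW) ^ 2 = c ^ i * (p : k) ^ (i * (finrank k V - i)) := by
  set u := τ - 1 with hu
  set m := finrank k V - i with hm
  set W := LinearMap.ker (u ^ i) with hW
  have hrange : LinearMap.range (u ^ m) = W := hτ.range_eq hi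
  have hfr : finrank k W = i := hτ.finrank_ker i hi
  have hcomm' : Commute τ τ' := hττ.trans hττ'.symm
  have hcomm : Commute u τ' := (hcomm'.sub_left (Commute.one_left _))
  -- the section
  have hsurj : LinearMap.range ((u ^ m).codRestrict W fun x => by
      rw [← hrange]; exact ⟨x, rfl⟩) = ⊤ := by
    rw [LinearMap.range_eq_top]
    rintro ⟨y, hy⟩
    rw [← hrange] at hy
    obtain ⟨x, hx⟩ := hy
    exact ⟨x, Subtype.ext hx⟩
  obtain ⟨s, hs⟩ := LinearMap.exists_rightInverse_of_surjective _ hsurj
  have hs' : ∀ x : W, (u ^ m) (s x) = x := by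
    intro x
    have h1 := congrArg (fun f : W →ₗ[k] W => ((f x : W) : V)) hs
    exact h1
  -- stability
  have hgW : ∀ x ∈ W, gs τ' p x ∈ W := by
    intro x hx
    have h1 : Commute (u ^ i) (gs τ' p) := by
      refine Commute.pow_left ?_ i
      unfold gs
      exact Commute.sum_right _ _ _ fun j _ => hcomm.pow_right j
    rw [hW, LinearMap.mem_ker] at hx ⊢
    rw [← Module.End.mul_apply, h1.eq, Module.End.mul_apply, hx, map_zero]
  have hFu : F * u = u * gs τ p * F := by
    rw [hu, gs_mul, mul_sub, hFτ, mul_one, sub_mul, one_mul]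
  have hFum : ∀ j : ℕ, F * u ^ j = u ^ j * (gs τ p) ^ j * F := by
    intro j
    rw [← (show Commute u (gs τ p) from gs_comm τ p).mul_pow]
    induction j with
    | zero => simp
    | succ j ih =>
      rw [pow_succ, ← mul_assoc, ih, mul_assoc, hFu, pow_succ, mul_assoc, mul_assoc, mul_assoc]
  have hF'u : u * F' = F' * (gs τ p * u) := by
    have h1 : F' * (F * u) * F' = F' * (u * gs τ p * F) * F' := by rw [hFu]
    rw [← mul_assoc, hF', one_mul] at h1
    rw [h1, mul_assoc, mul_assoc, hF, mul_one, (gs_comm τ p).eq]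
  have hF'W : ∀ x ∈ W, F' x ∈ W := by
    have h1 : ∀ j : ℕ, u ^ j * F' = F' * (gs τ p * u) ^ j := by
      intro j
      induction j with
      | zero => simp
      | succ j ih =>
        rw [pow_succ', mul_assoc, ih, ← mul_assoc, hF'u, pow_succ']
        noncomm_ring
    intro x hx
    rw [hW, LinearMap.mem_ker] at hx ⊢
    rw [← Module.End.mul_apply, h1, (gs_comm τ p).symm.mul_pow, Module.End.mul_apply,
      Module.End.mul_apply, hx, map_zero, map_zero]
  -- the form
  let β : W →ₗ[k] W →ₗ[k] k := (ω.compl₁₂ s W.subtype)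
  have hβapp : ∀ x y : W, β x y = ω (s x) y := fun _ _ => rfl
  have hβ : ∀ x, (∀ y, β x y = 0) → x = 0 := by
    intro x hx
    have h1 := of_perp hττ hττ' ω hnd hω m (s x) (fun v => by
      have h2 := hx ⟨(u ^ m) v, by rw [← hrange]; exact ⟨v, rfl⟩⟩
      exact h2)
    rw [← hu, hs'] at h1
    exact Subtype.ext h1
  have hadj : ∀ (j : ℕ) (z v : V), ω (((gs τ p) ^ j) z) v = ω z (((gs τ' p) ^ j) v) := by
    have h1 : ∀ z v, ω (τ z) v = ω z (τ' v) := by
      intro z v
      rw [← hω z (τ' v), ← Module.End.mul_apply τ τ', hττ]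
      rfl
    have h2 : ∀ (j : ℕ) (z v : V), ω ((τ ^ j) z) v = ω z ((τ' ^ j) v) := by
      intro j
      induction j with
      | zero => intro z v; rfl
      | succ j ih =>
        intro z v
        rw [pow_succ, Module.End.mul_apply, ih, h1, ← Module.End.mul_apply, ← pow_succ']
    have h3 : ∀ z v, ω (gs τ p z) v = ω z (gs τ' p v) := by
      intro z v
      unfold gs
      rw [LinearMap.sum_apply, LinearMap.sum_apply, map_sum, map_sum, LinearMap.sum_apply]
      exact Finset.sum_congr rfl fun j _ => h2 j z v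
    intro j
    induction j with
    | zero => intro z v; rfl
    | succ j ih =>
      intro z v
      rw [pow_succ, Module.End.mul_apply, ih, h3, ← Module.End.mul_apply, ← pow_succ']
  let T : End k W := F.restrict hFW
  let T' : End k W := F'.restrict hF'W
  let g : End k W := (gs τ' p).restrict hgW
  have hkey : ∀ x y, β (T x) (T y) = c * β x ((T' * g ^ m * T) y) := by
    intro x y
    rw [hβapp, hβapp]
    have h1 : (u ^ m) (((gs τ p) ^ m) (F (s x)) - s (T x)) = 0 := by
      rw [map_sub, hs', sub_eq_zero]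
      have h2 := congrArg (fun f : End k V => f (s x)) (hFum m)
      simp only [Module.End.mul_apply, hs'] at h2
      exact h2.symm
    obtain ⟨v, hv⟩ : ∃ v, (u ^ m) v = (T y : V) := by
      have h2 : (T y : V) ∈ LinearMap.range (u ^ m) := by
        rw [hrange]
        exact (T y).2
      exact h2
    have h2 := perp_of hττ hττ' ω hω m _ v h1
    rw [← hu, hv, map_sub, LinearMap.sub_apply, sub_eq_zero] at h2
    rw [← h2, hadj]
    have h3 : (((T' * g ^ m * T) y : W) : V) = F' (((gs τ' p) ^ m) (F y)) := by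
      rw [Module.End.mul_apply, Module.End.mul_apply]
      have h4 : (((g ^ m) (T y) : W) : V) = ((gs τ' p) ^ m) (F y) := restrict_pow hgW m (T y)
      rw [← h4]
      rfl
    rw [h3, ← hωF, ← Module.End.mul_apply F F', hF]
    rfl
  have hdet := det_sq β hβ T (T' * g ^ m * T) c hkey
  have hTT : T' * T = 1 := by
    ext x
    have h1 := congrArg (fun f : End k V => f x) hF'
    exact h1
  have hdT : LinearMap.det T' * LinearMap.det T = 1 := by
    rw [← map_mul, hTT, map_one]
  have hdg : LinearMap.det g = (p : k) ^ i := by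
    have h1 : IsNilpotent (τ' - 1) := by
      have h2 : τ' - 1 = -τ' * u := by
        rw [hu, neg_mul, mul_sub, hττ', mul_one, neg_sub]
      rw [h2]
      refine Commute.isNilpotent_mul_left ?_ ⟨_, hτ.1⟩
      exact (hcomm.symm).neg_left
    obtain ⟨d, hd⟩ := gs_nilpotent h1 p
    have h2 : IsNilpotent (g - (p : k) • 1) := by
      refine ⟨d, ?_⟩
      ext x
      have h3 : ∀ y ∈ W, (gs τ' p - (p : k) • (1 : End k V)) y ∈ W := by
        intro y hy
        exact W.sub_mem (hgW y hy) (W.smul_mem _ hy)
      have h4 : g - (p : k) • 1 = (gs τ' p - (p : k) • (1 : End k V)).restrict h3 := rfl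
      rw [h4, restrict_pow, hd]
      rfl
    rw [det_of_nilpotent h2, hfr]
  change LinearMap.det T ^ 2 = _
  rw [hdet, map_mul, map_mul, map_pow, hdg, hfr, pow_mul]
  linear_combination (c ^ i * ((p : k) ^ i) ^ m) * hdT

end frob

end Pool.Agent.L0h15.MN
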