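import Mathlib
import Pool.Agent.Y115.Bar
import Pool.Agent.L0h15.MN.Reg

/-!
# Irreducibility from one place of maximally unipotent monodromy
-/

set_option autoImplicit false
set_option linter.unusedSectionVars false

namespace Pool.Agent.L0h15.MN

open NumberField Pool.Agent.W569.FM Pool.Agent.Y115.R Pool.Agent.Y115.CQ Pool.Agent.Y115.Chi
  Module Polynomial

variable {ℓ : ℕ} [hℓ : Fact ℓ.Prime] {n : ℕ}

theorem ell_notMem {l ℓ : ℕ} (hl : l.Prime) (hℓ : ℓ.Prime) (h : l ≠ ℓ) {P : Ideal (OO ℚ)}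
    (hP : P.IsPrime) (hlP : (l : OO ℚ) ∈ P) : (ℓ : OO ℚ) ∉ P := by
  intro h'
  have hcop : Nat.Coprime l ℓ := (Nat.coprime_primes hl hℓ).2 h
  apply hP.ne_top
  rw [Ideal.eq_top_iff_one]
  have h3 := Nat.gcd_eq_gcd_ab l ℓ
  rw [hcop.gcd_eq_one] at h3
  have h4 : (1 : OO ℚ) = (l : OO ℚ) * ((l).gcdA ℓ : OO ℚ) + (ℓ : OO ℚ) *
      ((l).gcdB ℓ : OO ℚ) := by exact_mod_cast congrArg (Int.cast : ℤ → OO ℚ) h3
  rw [h4]
  exact P.add_mem (P.mul_mem_right _ hlP) (P.mul_mem_right _ h')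

theorem chiE_frob {p : ℕ} (hp : p.Prime) (hpℓ : p ≠ ℓ) {P : Ideal (OO ℚ)} (hP : P.IsPrime)
    (hpP : (p : OO ℚ) ∈ P) {σ : GF ℚ} (hσ : FrobAt p P σ) :
    (chiE ℓ ℚ_[ℓ] σ : ℚ_[ℓ]) = p := by
  have h3 := chi_frob (ℓ := ℓ) hP (ell_notMem hp hℓ.out hpℓ hP hpP) hσ
  rw [coe_chiE, h3]
  simp

theorem chiE_inertia {p : ℕ} (hp : p.Prime) (hpℓ : p ≠ ℓ) {P : Ideal (OO ℚ)} (hP : P.IsPrime)
    (hpP : (p : OO ℚ) ∈ P) {τ : GF ℚ} (hτ : InInertia P τ) : chiE ℓ ℚ_[ℓ] τ = 1 := by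
  have h1 : FrobAt 1 P τ := by
    intro x
    rw [pow_one]
    exact hτ x
  have h3 := chi_frob (ℓ := ℓ) hP (ell_notMem hp hℓ.out hpℓ hP hpP) h1
  apply Units.ext
  rw [coe_chiE, h3]
  simp

/-- A Frobenius element at a place of good reduction, pure of weight `w`, with rational
characteristic polynomial. -/
def GoodFrob (ρ : GF ℚ →* GL (Fin n) ℚ_[ℓ]) (w : ℤ) (l : ℕ) : Prop :=
  l.Prime ∧ l ≠ ℓ ∧ ∃ (P : Ideal (OO ℚ)) (σ : GF ℚ) (Q : ℚ[X]), P.IsPrime ∧ (l : OO ℚ) ∈ P ∧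
    FrobAt l P σ ∧ (act ρ σ⁻¹).charpoly = Q.map (algebraMap ℚ ℚ_[ℓ]) ∧
    ∀ z : ℂ, aeval z Q = 0 → ‖z‖ ^ 2 = (l : ℝ) ^ w

/-- **Determinants of stable subspaces.** -/
theorem dt_main (ρ : GF ℚ →* GL (Fin n) ℚ_[ℓ]) (hρ : Continuous ρ) (w : ℤ) (l : Fin 3 → ℕ)
    (hinj : Function.Injective l) (hgood : ∀ i, GoodFrob ρ w (l i))
    (W : Submodule ℚ_[ℓ] (Fin n → ℚ_[ℓ])) (hW : ∀ g, W ≤ W.comap (act ρ g)) :
    ∃ (N : ℕ) (a : ℤ), 0 < N ∧ 2 * a = -(w * finrank ℚ_[ℓ] W * N) ∧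
      ∀ g, dt ρ W hW g ^ N = chiE ℓ ℚ_[ℓ] g ^ a := by
  classical
  choose hl hlℓ P σ Q hP hlP hσ hQ hpure using hgood
  obtain ⟨jj, -⟩ := exists_j ℓ ℚ_[ℓ] ℚ (algebraMap ℚ ℚ_[ℓ]) (algebraMap ℚ ℂ)
  set i := finrank ℚ_[ℓ] W with hi
  -- the values at the good places
  have hval : ∀ t, IsAlgebraic ℚ (dt ρ W hW (σ t)⁻¹ : ℚ_[ℓ]) ∧
      ‖jj (dt ρ W hW (σ t)⁻¹ : ℚ_[ℓ])‖ ^ 2 = ((l t : ℝ) ^ w) ^ i := by
    intro t
    set C := (res ρ W hW (σ t)⁻¹).charpoly with hC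
    have hCm : C.Monic := LinearMap.charpoly_monic _
    have hdeg : C.natDegree = i := LinearMap.charpoly_natDegree _
    have hsplit : (C.map jj).Splits := IsAlgClosed.splits _
    set A := (C.map jj).roots with hA
    have hcard : Multiset.card A = i := by
      rw [hA, ← hsplit.natDegree_eq_card_roots, Polynomial.natDegree_map, hdeg]
    have hroot : ∀ a ∈ A, aeval a (Q t) = 0 := by
      intro a ha
      have h1 := Pool.Agent.W522.C.charpoly_eq_mul (act ρ (σ t)⁻¹) W (hW _)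
      have h2 : C ∣ (Q t).map (algebraMap ℚ ℚ_[ℓ]) := by
        rw [← hQ t]
        exact Dvd.intro _ h1.symm
      have h3 : C.map jj ∣ ((Q t).map (algebraMap ℚ ℚ_[ℓ])).map jj := Polynomial.map_dvd jj h2
      have h4 : (((Q t).map (algebraMap ℚ ℚ_[ℓ])).map jj).eval a = 0 :=
        Polynomial.eval_eq_zero_of_dvd_of_eval_eq_zero h3 (Polynomial.isRoot_of_mem_roots ha)
      rw [Polynomial.map_map] at h4
      rw [aeval_def, ← h4, eval_map]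
      congr 1
      exact Subsingleton.elim _ _
    have hprod : A.prod = jj (dt ρ W hW (σ t)⁻¹ : ℚ_[ℓ]) := by
      have h1 : (dt ρ W hW (σ t)⁻¹ : ℚ_[ℓ]) = LinearMap.det (res ρ W hW (σ t)⁻¹) := rfl
      rw [h1, LinearMap.det_eq_sign_charpoly_coeff]
      have h2 : (res ρ W hW (σ t)⁻¹).charpoly = C := rfl
      rw [h2, map_mul, map_pow, map_neg, map_one, ← coeff_map,
        hsplit.coeff_zero_eq_prod_roots_of_monic (hCm.map jj), Polynomial.natDegree_map, hdeg,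
        ← mul_assoc, ← pow_add, ← two_mul, pow_mul, neg_one_sq, one_pow, one_mul]
    have hQ0 : Q t ≠ 0 := by
      intro h0
      have h1 := hQ t
      rw [h0, Polynomial.map_zero] at h1
      exact (LinearMap.charpoly_monic (act ρ (σ t)⁻¹)).ne_zero h1
    refine ⟨?_, ?_⟩
    · have h1 : IsAlgebraic ℚ A.prod := Pool.Agent.Y115.M.isAlgebraic_multiset_prod fun a ha =>
        ⟨Q t, hQ0, hroot a ha⟩
      rw [hprod] at h1
      exact (isAlgebraic_algHom_iff (RingHom.toRatAlgHom jj) jj.injective).1 h1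
    · rw [← hprod, Pool.Agent.Y115.M.norm_multiset_prod A ((l t : ℝ) ^ w)
        fun a ha => hpure t a (hroot a ha), hcard]
  obtain ⟨N, a, hN, hNa⟩ := char_main (ℓ := ℓ) (E := ℚ_[ℓ]) (dt ρ W hW)
    (continuous_dt ℓ ρ hρ W hW) l hl hinj hlℓ P hP hlP σ hσ (fun t => by
      have h1 := (hval t).1
      rw [map_inv, Units.val_inv_eq_inv_val] at h1
      exact IsAlgebraic.inv_iff.1 h1)
  refine ⟨N, a, hN, ?_, hNa⟩
  have h1 := hNa (σ 0)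
  have h2 := congrArg (fun u : ℚ_[ℓ]ˣ => ‖jj ((u : ℚ_[ℓ])⁻¹)‖ ^ 2) h1
  simp only [Units.val_pow_eq_pow_val, Units.val_zpow_eq_zpow_val] at h2
  rw [chiE_frob (hl 0) (hlℓ 0) (hP 0) (hlP 0) (hσ 0), ← inv_pow, map_pow, norm_pow, ← pow_mul,
    mul_comm N 2, pow_mul] at h2
  have h3 := (hval 0).2
  rw [map_inv, Units.val_inv_eq_inv_val] at h3
  rw [h3, map_inv₀, map_zpow₀, map_natCast, norm_inv, norm_zpow, Complex.norm_natCast] at h2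
  have hl0 : (0 : ℝ) < l 0 := by exact_mod_cast (hl 0).pos
  have hl1 : (l 0 : ℝ) ≠ 1 := by exact_mod_cast (hl 0).one_lt.ne'
  have h4 : ((l 0 : ℝ) ^ (w * i * N) : ℝ) = (l 0 : ℝ) ^ (-(2 * a)) := by
    have h5 : (((l 0 : ℝ) ^ w) ^ i) ^ N = (l 0 : ℝ) ^ (w * i * N) := by
      rw [zpow_mul, zpow_mul, zpow_natCast, zpow_natCast]
    have h6 : (((l 0 : ℝ) ^ a)⁻¹) ^ 2 = (l 0 : ℝ) ^ (-(2 * a)) := by
      rw [← zpow_neg, ← zpow_natCast, ← zpow_mul]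
      congr 1
      push_cast
      ring
    rw [← h5, ← h6]
    exact h2
  have h5 := zpow_right_injective₀ hl0 hl1 h4
  linarith

/-- **Strong irreducibility.** -/
theorem strong_irr (ρ : GF ℚ →* GL (Fin n) ℚ_[ℓ]) (hρ : Continuous ρ) (w : ℤ)
    (l : Fin 3 → ℕ) (hinj : Function.Injective l) (hgood : ∀ i, GoodFrob ρ w (l i))
    (ω : (Fin n → ℚ_[ℓ]) →ₗ[ℚ_[ℓ]] (Fin n → ℚ_[ℓ]) →ₗ[ℚ_[ℓ]] ℚ_[ℓ])
    (hnd : ∀ x, (∀ y, ω x y = 0) → x = 0)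
    (hω : ∀ g x y, ω (act ρ g x) (act ρ g y) =
      ((chiE ℓ ℚ_[ℓ] g ^ (-w) : ℚ_[ℓ]ˣ) : ℚ_[ℓ]) * ω x y)
    (p₀ : ℕ) (hp₀ : p₀.Prime) (hp₀ℓ : p₀ ≠ ℓ) (P₀ : Ideal (OO ℚ)) (hP₀ : P₀.IsPrime)
    (hpP₀ : (p₀ : OO ℚ) ∈ P₀) (F τ : GF ℚ) (hF : FrobAt p₀ P₀ F) (hτ : InInertia P₀ τ)
    (hone : OneBlock (act ρ τ - 1)) (hFτ : ρ (F * τ * F⁻¹) = ρ (τ ^ p₀))
    (H : Subgroup (GF ℚ)) (hH : H.FiniteIndex) (U : Submodule ℚ_[ℓ] (Fin n → ℚ_[ℓ]))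
    (hU : ∀ h ∈ H, ∀ x ∈ U, act ρ h x ∈ U) : U = ⊥ ∨ U = ⊤ := by
  classical
  have hpow : ∀ (g : GF ℚ) (m : ℕ), act ρ (g ^ m) = act ρ g ^ m := by
    intro g m
    induction m with
    | zero => rw [pow_zero, pow_zero, act_one]
    | succ m ih => rw [pow_succ, act_mul, ih, pow_succ]
  have hinv1 : ∀ g, act ρ g * act ρ g⁻¹ = 1 := by
    intro g
    rw [← act_mul, mul_inv_cancel, act_one]
  have hinv2 : ∀ g, act ρ g⁻¹ * act ρ g = 1 := by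
    intro g
    rw [← act_mul, inv_mul_cancel, act_one]
  set i := finrank ℚ_[ℓ] U with hi
  have hN : H.normalCore.FiniteIndex := inferInstance
  set M := H.normalCore.index with hM
  have hM0 : 0 < M := Nat.pos_of_ne_zero hN.index_ne_zero
  have hτM : τ ^ M ∈ H.normalCore := Subgroup.pow_index_mem _ τ
  have hker : ∀ U' : Submodule ℚ_[ℓ] (Fin n → ℚ_[ℓ]), finrank ℚ_[ℓ] U' = i →
      (∀ x ∈ U', act ρ (τ ^ M) x ∈ U') → U' = LinearMap.ker ((act ρ τ - 1) ^ i) := by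
    intro U' hU' hst
    have h1 := hone.stable_pow hM0 U' (fun x hx => by
      rw [← hpow]
      exact hst x hx)
    rw [hU'] at h1
    exact h1
  have hUk : U = LinearMap.ker ((act ρ τ - 1) ^ i) :=
    hker U rfl fun x hx => hU _ (Subgroup.normalCore_le H hτM) x hx
  have hUst : ∀ g, U ≤ U.comap (act ρ g) := by
    intro g x hx
    rw [Submodule.mem_comap]
    have h1 : U.map (act ρ g) = LinearMap.ker ((act ρ τ - 1) ^ i) := by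
      refine hker _ ?_ ?_
      · exact (LinearEquiv.finrank_eq (Submodule.equivMapOfInjective (act ρ g)
          (fun x y hxy => by
            have h2 := congrArg (act ρ g⁻¹) hxy
            rw [← Module.End.mul_apply, ← Module.End.mul_apply, hinv2] at h2
            exact h2) U)).symm
      · rintro _ ⟨y, hy, rfl⟩
        have h2 : g⁻¹ * τ ^ M * g ∈ H.normalCore := by
          have h3 := (Subgroup.normalCore_normal H).conj_mem _ hτM g⁻¹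
          rwa [inv_inv] at h3
        refine ⟨act ρ (g⁻¹ * τ ^ M * g) y, hU _ (Subgroup.normalCore_le H h2) y hy, ?_⟩
        rw [← Module.End.mul_apply, ← act_mul, ← Module.End.mul_apply, ← act_mul]
        congr 2
        group
    rw [hUk, ← h1]
    exact ⟨x, hx, rfl⟩
  obtain ⟨N, a, hN0, ha, hNa⟩ := dt_main ρ hρ w l hinj hgood U hUst
  have hin : i ≤ finrank ℚ_[ℓ] (Fin n → ℚ_[ℓ]) := Submodule.finrank_le U
  have hdet : (dt ρ U hUst F : ℚ_[ℓ]) ^ 2 =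
      ((p₀ : ℚ_[ℓ]) ^ (-w)) ^ i *
        (p₀ : ℚ_[ℓ]) ^ (i * (finrank ℚ_[ℓ] (Fin n → ℚ_[ℓ]) - i)) := by
    have key : ∀ (W : Submodule ℚ_[ℓ] (Fin n → ℚ_[ℓ])),
        W = LinearMap.ker ((act ρ τ - 1) ^ i) → ∀ hW : ∀ x ∈ W, act ρ F x ∈ W,
        LinearMap.det ((act ρ F).restrict hW) ^ 2 = ((p₀ : ℚ_[ℓ]) ^ (-w)) ^ i *
          (p₀ : ℚ_[ℓ]) ^ (i * (finrank ℚ_[ℓ] (Fin n → ℚ_[ℓ]) - i)) := by
      rintro _ rfl hW
      refine det_ker (τ := act ρ τ) (τ' := act ρ τ⁻¹) (F := act ρ F) (F' := act ρ F⁻¹) hone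
        (hinv1 τ) (hinv2 τ) (hinv1 F) (hinv2 F) ?_ ω hnd ?_ _ ?_ hin hW
      · have h1 : act ρ (F * τ * F⁻¹) = act ρ (τ ^ p₀) := by
          unfold act
          rw [hFτ]
        rw [act_mul, act_mul, hpow] at h1
        rw [← h1, mul_assoc, hinv2, mul_one]
      · intro x y
        rw [hω, chiE_inertia hp₀ hp₀ℓ hP₀ hpP₀ hτ, one_zpow, Units.val_one, one_mul]
      · intro x y
        rw [hω, Units.val_zpow_eq_zpow_val, chiE_frob hp₀ hp₀ℓ hP₀ hpP₀ hF]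
    exact key U hUk fun x hx => hUst F hx
  have h1 : ((dt ρ U hUst F : ℚ_[ℓ]) ^ 2) ^ N = (p₀ : ℚ_[ℓ]) ^ (2 * a) := by
    have h2 := congrArg (fun u : ℚ_[ℓ]ˣ => (u : ℚ_[ℓ])) (hNa F)
    simp only [Units.val_pow_eq_pow_val, Units.val_zpow_eq_zpow_val] at h2
    rw [chiE_frob hp₀ hp₀ℓ hP₀ hpP₀ hF] at h2
    rw [← pow_mul, mul_comm, pow_mul, h2, ← zpow_natCast, ← zpow_mul]
    congr 1
    push_cast
    ring
  have hp0 : (p₀ : ℚ_[ℓ]) ≠ 0 := by exact_mod_cast hp₀.ne_zero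
  rw [hdet, ha, ← hi] at h1
  have h2 : (p₀ : ℚ_[ℓ]) ^ (i * (finrank ℚ_[ℓ] (Fin n → ℚ_[ℓ]) - i) * N) = 1 := by
    have h3 : (((p₀ : ℚ_[ℓ]) ^ (-w)) ^ i) ^ N = (p₀ : ℚ_[ℓ]) ^ (-(w * i * N)) := by
      rw [← zpow_natCast, ← zpow_natCast, ← zpow_mul, ← zpow_mul]
      congr 1
      ring
    rw [mul_pow, h3, ← pow_mul] at h1
    have h4 : (p₀ : ℚ_[ℓ]) ^ (-(w * i * N)) ≠ 0 := zpow_ne_zero _ hp0
    exact mul_left_cancel₀ h4 (h1.trans (mul_one _).symm)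
  have h3 : p₀ ^ (i * (finrank ℚ_[ℓ] (Fin n → ℚ_[ℓ]) - i) * N) = 1 := by exact_mod_cast h2
  have h4 : i * (finrank ℚ_[ℓ] (Fin n → ℚ_[ℓ]) - i) * N = 0 := by
    by_contra h5
    exact absurd h3 (Nat.one_lt_pow h5 hp₀.one_lt).ne'
  rcases Nat.mul_eq_zero.1 h4 with h5 | h5
  · rcases Nat.mul_eq_zero.1 h5 with h6 | h6
    · left
      exact Submodule.finrank_eq_zero.1 h6
    · right
      apply Submodule.eq_top_of_finrank_eq
      omega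
  · omega

end Pool.Agent.L0h15.MN
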