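import Mathlib
import Pool.Agent.L0h15.MN.Core
import Pool.Agent.L0h15.MN.Irr

/-!
# Auxiliary statements: transvections, powers of inertia elements, matrix representations
-/

set_option autoImplicit false
set_option linter.unusedSectionVars false

namespace Pool.Agent.L0h15.MN

open NumberField Pool.Agent.W569.FM Pool.Agent.Y115.R Module

/-- the linear representation of a matrix representation -/
noncomputable def rep {G : Type*} [Group G] {K : Type*} [Field K] {n : ℕ}
    (ρ : G →* GL (Fin n) K) : Representation K G (Fin n → K) where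
  toFun := act ρ
  map_one' := act_one ρ
  map_mul' := act_mul ρ

theorem rep_apply {G : Type*} [Group G] {K : Type*} [Field K] {n : ℕ}
    (ρ : G →* GL (Fin n) K) (g : G) : rep ρ g = act ρ g := rfl

theorem inertia_pow {P : Ideal (OO ℚ)} {g : GF ℚ} (hg : InInertia P g) (m : ℕ) :
    InInertia P (g ^ m) := by
  induction m with
  | zero =>
    intro x
    rw [pow_zero, one_smul, sub_self]
    exact P.zero_mem
  | succ m ih =>
    intro x
    have h1 : g ^ (m + 1) • x - x = (g • (g ^ m • x) - g ^ m • x) + (g ^ m • x - x) := by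
      rw [pow_succ', mul_smul]
      ring
    rw [h1]
    exact P.add_mem (hg _) (ih x)

theorem transvection_of_rank_one {k V : Type*} [Field k] [AddCommGroup V] [Module k V]
    [FiniteDimensional k V] {ω : V →ₗ[k] V →ₗ[k] k} (halt : ∀ x, ω x x = 0)
    (hnd : ∀ x, (∀ y, ω x y = 0) → x = 0) (T : End k V) (hT : ∀ x y, ω (T x) (T y) = ω x y)
    (hrk : finrank k (LinearMap.range (T - 1)) = 1) :
    ∃ (u : V) (a : k), u ≠ 0 ∧ a ≠ 0 ∧ ∀ x, T x = x + a • ω u x • u := by
  obtain ⟨⟨u, hu⟩, hu0, hspan⟩ := finrank_eq_one_iff'.1 hrk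
  have hu0' : u ≠ 0 := fun h => hu0 (Subtype.ext h)
  have hex : ∀ x, ∃ c : k, T x = x + c • u := by
    intro x
    obtain ⟨c, hc⟩ := hspan ⟨(T - 1) x, ⟨x, rfl⟩⟩
    refine ⟨c, ?_⟩
    have h1 : c • u = (T - 1) x := congrArg Subtype.val hc
    rw [h1, LinearMap.sub_apply]
    simp
  choose c hc using hex
  obtain ⟨y, hy⟩ : ∃ y, ω u y ≠ 0 := by
    by_contra hcon
    push Not at hcon
    exact hu0' (hnd u hcon)
  have hrel : ∀ x z, c x * ω u z = c z * ω u x := by
    intro x z
    have h1 := hT x z
    rw [hc x, hc z] at h1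
    simp only [map_add, LinearMap.add_apply, map_smul, LinearMap.smul_apply, halt,
      smul_eq_mul] at h1
    rw [skew halt u x] at h1
    linear_combination h1
  refine ⟨u, c y / ω u y, hu0', ?_, fun x => ?_⟩
  · intro h0
    have hcy : c y = 0 := by
      rcases div_eq_zero_iff.1 h0 with h | h
      · exact h
      · exact absurd h hy
    have h1 : T - 1 = 0 := by
      ext x
      have h2 := hrel x y
      rw [hcy, zero_mul] at h2
      have h3 := (mul_eq_zero.1 h2).resolve_right hy
      rw [LinearMap.sub_apply, hc x, h3]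
      simp
    rw [h1, LinearMap.range_zero, finrank_bot] at hrk
    exact zero_ne_one hrk
  · rw [hc x, smul_smul]
    congr 2
    have h1 := hrel x y
    field_simp
    linear_combination h1

theorem transvection_pow {k V : Type*} [Field k] [AddCommGroup V] [Module k V]
    {ω : V →ₗ[k] V →ₗ[k] k} (halt : ∀ x, ω x x = 0) {T : End k V} {u : V} {a : k}
    (hT : ∀ x, T x = x + a • ω u x • u) (m : ℕ) :
    ∀ x, (T ^ m) x = x + ((m : k) * a) • ω u x • u := by
  induction m with
  | zero =>
    intro x
    rw [pow_zero, Nat.cast_zero, zero_mul, zero_smul, add_zero]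
    rfl
  | succ m ih =>
    intro x
    rw [pow_succ, Module.End.mul_apply, hT, ih, map_add, map_smul, map_smul, halt, smul_zero,
      smul_zero, add_zero, Nat.cast_succ, add_mul, one_mul, add_smul]
    abel

/-- the extensions of `F` in an algebraic closure -/
abbrev Ext (F : Type) [Field F] : Type := IntermediateField F (AlgebraicClosure F)

theorem finiteIndex_fixingSubgroup {F : Type} [Field F] [CharZero F] (L : Ext F)
    [FiniteDimensional F L] : (L.fixingSubgroup : Subgroup (GF F)).FiniteIndex := by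
  have h1 : IsOpen ((L.fixingSubgroup : Subgroup (GF F)) : Set (GF F)) :=
    IntermediateField.fixingSubgroup_isOpen L
  have h2 : Finite (GF F ⧸ (L.fixingSubgroup : Subgroup (GF F))) :=
    Subgroup.quotient_finite_of_isOpen _ h1
  exact Subgroup.finiteIndex_of_finite_quotient

theorem exists_frob {l : ℕ} (hl : l.Prime) : ∃ P : Ideal (OO ℚ), P.IsPrime ∧ (l : OO ℚ) ∈ P ∧
    ∃ σ : GF ℚ, FrobAt l P σ := by
  obtain ⟨⟨P, hP, hlP, σ, hσ⟩, -⟩ := Pool.Agent.W571.FM.main l hl
  exact ⟨P, hP.isPrime, hlP, σ, hσ⟩

end Pool.Agent.L0h15.MN
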