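import Mathlib
import Pool.Agent.L0h15.MN.Count

/-!
# Counting tuples of rational numbers without suitable prime factors
-/

set_option autoImplicit false
set_option linter.unusedSectionVars false

namespace Pool.Agent.L0h15.MN

open Finset MvPolynomial

/-- the numerator and the denominator -/
def vec (t : ℚ) : Fin 2 → ℤ := ![t.num, t.den]

/-- the value of a polynomial in two variables -/
noncomputable def ev (P : MvPolynomial (Fin 2) ℤ) (t : ℚ) : ℤ := eval (vec t) P

theorem vec_injective : Function.Injective vec := by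
  intro s t h
  have h1 : s.num = t.num := congrFun h 0
  have h2 : (s.den : ℤ) = t.den := congrFun h 1
  exact Rat.ext h1 (by exact_mod_cast h2)

variable {ι : Type} [Fintype ι] [DecidableEq ι]

/-- Each `Δ i` does not vanish, each `C i` has a prime factor outside of `T`, and each `D i` has
a prime factor `q` outside of `T` which does not divide the other `Δ j`. -/
def Generic (Δ C D : ι → MvPolynomial (Fin 2) ℤ) (T : Finset ℕ) (R : ℕ → Prop) (t : ι → ℚ) :
    Prop :=
  ∀ i, ev (Δ i) (t i) ≠ 0 ∧ (∃ p : ℕ, p.Prime ∧ p ∉ T ∧ (p : ℤ) ∣ ev (C i) (t i)) ∧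
    ∃ q : ℕ, q.Prime ∧ q ∉ T ∧ R q ∧ (q : ℤ) ∣ ev (D i) (t i) ∧
      ∀ j, j ≠ i → ¬ (q : ℤ) ∣ ev (Δ j) (t j)

/-- the box -/
noncomputable def box (H : ℕ) : Finset (Fin 2 → ℤ) := Fintype.piFinset fun _ => Finset.Icc (-(H : ℤ)) H

theorem mem_box {H : ℕ} {y : Fin 2 → ℤ} : y ∈ box H ↔ ∀ a, -(H : ℤ) ≤ y a ∧ y a ≤ H := by
  unfold box
  rw [Fintype.mem_piFinset]
  simp only [Finset.mem_Icc]

theorem card_box (H : ℕ) : (box H).card = (2 * H + 1) ^ 2 := by
  unfold box
  rw [Fintype.card_piFinset_const, Int.card_Icc]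
  congr 1
  omega

theorem card_zeros {P : MvPolynomial (Fin 2) ℤ} (hP : P ≠ 0) (H : ℕ) :
    ((box H).filter fun y => eval y P = 0).card ≤ P.totalDegree * (2 * H + 1) := by
  have h1 := schwartz_zippel_totalDegree hP (Finset.Icc (-(H : ℤ)) H)
  have h2 : (Finset.Icc (-(H : ℤ)) H).card = 2 * H + 1 := by
    rw [Int.card_Icc]
    omega
  rw [h2] at h1
  have h3 : (0 : ℚ≥0) < ((2 * H + 1 : ℕ) : ℚ≥0) := by positivity
  rw [div_le_div_iff₀ (by positivity) h3] at h1
  have h4 : ((box H).filter fun y => eval y P = 0).card * (2 * H + 1) ≤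
      P.totalDegree * (2 * H + 1) ^ 2 := by exact_mod_cast h1
  have h5 : P.totalDegree * (2 * H + 1) ^ 2 = P.totalDegree * (2 * H + 1) * (2 * H + 1) := by ring
  rw [h5] at h4
  exact Nat.le_of_mul_le_mul_right h4 (by omega)

theorem card_level {P : MvPolynomial (Fin 2) ℤ} (hP : 0 < P.totalDegree) (n : ℤ) (H : ℕ) :
    ((box H).filter fun y => eval y P = n).card ≤ P.totalDegree * (2 * H + 1) := by
  have h1 : P - MvPolynomial.C n ≠ 0 := by
    intro h
    rw [sub_eq_zero] at h
    rw [h, totalDegree_C] at hP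
    exact lt_irrefl _ hP
  have h2 := card_zeros h1 H
  have h3 : (P - MvPolynomial.C n).totalDegree ≤ P.totalDegree := by
    refine (totalDegree_sub_C_le P n)
  have h4 : ((box H).filter fun y => eval y P = n) =
      (box H).filter fun y => eval y (P - MvPolynomial.C n) = 0 := by
    refine Finset.filter_congr fun y _ => ?_
    rw [map_sub, eval_C, sub_eq_zero]
  rw [h4]
  exact h2.trans (Nat.mul_le_mul_right _ h3)

theorem eval_bound (P : MvPolynomial (Fin 2) ℤ) : ∃ A : ℕ, ∀ H : ℕ, 1 ≤ H → ∀ y ∈ box H,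
    (eval y P).natAbs ≤ A * H ^ P.totalDegree := by
  refine ⟨∑ d ∈ P.support, (P.coeff d).natAbs, fun H hH y hy => ?_⟩
  rw [eval_eq, Finset.sum_mul]
  refine (Int.natAbs_sum_le _ _).trans (Finset.sum_le_sum fun d hd => ?_)
  rw [Int.natAbs_mul]
  refine Nat.mul_le_mul_left _ ?_
  have h1 : ∀ a ∈ d.support, (y a ^ d a).natAbs ≤ H ^ d a := by
    intro a _
    rw [Int.natAbs_pow]
    refine Nat.pow_le_pow_left ?_ _
    have := mem_box.1 hy a
    omega
  have h2 : (∏ a ∈ d.support, y a ^ d a).natAbs = ∏ a ∈ d.support, (y a ^ d a).natAbs := by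
    exact map_prod Int.natAbsHom _ _
  rw [h2]
  refine (Finset.prod_le_prod' h1).trans ?_
  rw [Finset.prod_pow_eq_pow_sum]
  exact Nat.pow_le_pow_right hH (le_totalDegree hd)

/-- the bad pairs -/
noncomputable def badPairs (Δ C D : MvPolynomial (Fin 2) ℤ) (T : Finset ℕ) (N X H : ℕ) :
    Finset (Fin 2 → ℤ) := by
  classical
  exact (box H).filter fun y => eval y Δ = 0 ∨ eval y C = 0 ∨ eval y D = 0 ∨
    (eval y C).natAbs ∈ smooth T 1 X ∨ (eval y D).natAbs ∈ smooth T N X

theorem card_natAbs {P : MvPolynomial (Fin 2) ℤ} (hP : 0 < P.totalDegree) (S : Finset ℕ) (H : ℕ) :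
    ((box H).filter fun y => (eval y P).natAbs ∈ S).card ≤
      S.card * (2 * (P.totalDegree * (2 * H + 1))) := by
  classical
  have h1 : ((box H).filter fun y => (eval y P).natAbs ∈ S) ⊆ S.biUnion fun n =>
      ((box H).filter fun y => eval y P = n) ∪ (box H).filter fun y => eval y P = -n := by
    intro y hy
    rw [Finset.mem_filter] at hy
    rw [Finset.mem_biUnion]
    refine ⟨_, hy.2, ?_⟩
    rw [Finset.mem_union, Finset.mem_filter, Finset.mem_filter]
    rcases Int.natAbs_eq (eval y P) with h | h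
    · exact Or.inl ⟨hy.1, h⟩
    · exact Or.inr ⟨hy.1, h⟩
  refine (Finset.card_le_card h1).trans (Finset.card_biUnion_le_card_mul _ _ _ fun n _ => ?_)
  refine (Finset.card_union_le _ _).trans ?_
  have h2 := card_level hP n H
  have h3 := card_level hP (-n) H
  omega

theorem card_badPairs {Δ C D : MvPolynomial (Fin 2) ℤ} (hΔ : Δ ≠ 0) (hC : 0 < C.totalDegree)
    (hD : 0 < D.totalDegree) (T : Finset ℕ) (N X H : ℕ) : (badPairs Δ C D T N X H).card ≤
    (Δ.totalDegree + C.totalDegree + D.totalDegree) * (2 * H + 1) *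
      (1 + 2 * (smooth T 1 X).card + 2 * (smooth T N X).card) := by
  classical
  have h1 : badPairs Δ C D T N X H ⊆ ((box H).filter fun y => eval y Δ = 0) ∪
      (((box H).filter fun y => eval y C = 0) ∪ (((box H).filter fun y => eval y D = 0) ∪
      (((box H).filter fun y => (eval y C).natAbs ∈ smooth T 1 X) ∪
      ((box H).filter fun y => (eval y D).natAbs ∈ smooth T N X)))) := by
    intro y hy
    unfold badPairs at hy
    simp only [Finset.mem_union, Finset.mem_filter] at hy ⊢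
    tauto
  have h2 := card_zeros hΔ H
  have h3 := card_level hC 0 H
  have h4 := card_level hD 0 H
  have h5 := card_natAbs hC (smooth T 1 X) H
  have h6 := card_natAbs hD (smooth T N X) H
  have h7 := Finset.card_le_card h1
  have h8 := Finset.card_union_le ((box H).filter fun y => eval y Δ = 0)
    (((box H).filter fun y => eval y C = 0) ∪ (((box H).filter fun y => eval y D = 0) ∪
      (((box H).filter fun y => (eval y C).natAbs ∈ smooth T 1 X) ∪
      ((box H).filter fun y => (eval y D).natAbs ∈ smooth T N X))))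
  have h9 := Finset.card_union_le ((box H).filter fun y => eval y C = 0)
    (((box H).filter fun y => eval y D = 0) ∪
      (((box H).filter fun y => (eval y C).natAbs ∈ smooth T 1 X) ∪
      ((box H).filter fun y => (eval y D).natAbs ∈ smooth T N X)))
  have h10 := Finset.card_union_le ((box H).filter fun y => eval y D = 0)
      (((box H).filter fun y => (eval y C).natAbs ∈ smooth T 1 X) ∪
      ((box H).filter fun y => (eval y D).natAbs ∈ smooth T N X))
  have h11 := Finset.card_union_le ((box H).filter fun y => (eval y C).natAbs ∈ smooth T 1 X)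
      ((box H).filter fun y => (eval y D).natAbs ∈ smooth T N X)
  have h12 : (badPairs Δ C D T N X H).card ≤ Δ.totalDegree * (2 * H + 1) +
      (C.totalDegree * (2 * H + 1) + (D.totalDegree * (2 * H + 1) +
        ((smooth T 1 X).card * (2 * (C.totalDegree * (2 * H + 1))) +
          (smooth T N X).card * (2 * (D.totalDegree * (2 * H + 1)))))) := by
    omega
  refine h12.trans ?_
  set a := Δ.totalDegree
  set b := C.totalDegree
  set c := D.totalDegree
  set s := (smooth T 1 X).card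
  set s' := (smooth T N X).card
  set h := 2 * H + 1
  have : (a + b + c) * h * (1 + 2 * s + 2 * s') = a * h + (b * h + (c * h + (s * (2 * (b * h)) +
      s' * (2 * (c * h))))) + (2 * s * a * h + 2 * s * c * h + 2 * s' * a * h + 2 * s' * b * h) := by
    ring
  omega

/-- the product of the values of the other `Δ j` -/
noncomputable def others (Δ : ι → MvPolynomial (Fin 2) ℤ) (i : ι) (x : ι → Fin 2 → ℤ) : ℕ :=
  ∏ j ∈ Finset.univ.erase i, (eval (x j) (Δ j)).natAbs

theorem others_update (Δ : ι → MvPolynomial (Fin 2) ℤ) (i : ι) (x : ι → Fin 2 → ℤ)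
    (y : Fin 2 → ℤ) : others Δ i (Function.update x i y) = others Δ i x := by
  unfold others
  refine Finset.prod_congr rfl fun j hj => ?_
  rw [Function.update_of_ne (Finset.ne_of_mem_erase hj)]

theorem others_le {Δ : ι → MvPolynomial (Fin 2) ℤ} (i : ι) {H X : ℕ} (hX : 1 ≤ X)
    (hb : ∀ j, ∀ y ∈ box H, (eval y (Δ j)).natAbs ≤ X) {x : ι → Fin 2 → ℤ}
    (hx : ∀ j, j ≠ i → x j ∈ box H) : max 1 (others Δ i x) ≤ X ^ (Fintype.card ι - 1) := by
  refine max_le (Nat.one_le_pow _ _ hX) ?_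
  unfold others
  calc _ ≤ ∏ j ∈ Finset.univ.erase i, X :=
        Finset.prod_le_prod' fun j hj => hb j _ (hx j (Finset.ne_of_mem_erase hj))
    _ = _ := by
        rw [Finset.prod_const, Finset.card_erase_of_mem (Finset.mem_univ i), Finset.card_univ]

/-- the bad points of the box for the index `i` -/
noncomputable def badBox (Δ C D : ι → MvPolynomial (Fin 2) ℤ) (T : Finset ℕ) (X H : ℕ) (i : ι) :
    Finset (ι → Fin 2 → ℤ) :=
  (Fintype.piFinset fun _ : ι => box H).filter
    fun x => x i ∈ badPairs (Δ i) (C i) (D i) T (max 1 (others Δ i x)) X H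

theorem card_badBox (Δ C D : ι → MvPolynomial (Fin 2) ℤ) (T : Finset ℕ) {X H B : ℕ} (i : ι)
    (hB : ∀ x : ι → Fin 2 → ℤ, (∀ j, j ≠ i → x j ∈ box H) →
      (badPairs (Δ i) (C i) (D i) T (max 1 (others Δ i x)) X H).card ≤ B) :
    (badBox Δ C D T X H i).card ≤ B * ((2 * H + 1) ^ 2) ^ (Fintype.card ι - 1) := by
  let f : (ι → Fin 2 → ℤ) → (ι → Fin 2 → ℤ) := fun x => Function.update x i 0
  have h1 := Finset.card_le_mul_card_image (f := f) (badBox Δ C D T X H i) B (by
    intro y hy
    obtain ⟨x, hx, rfl⟩ := Finset.mem_image.1 hy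
    unfold badBox at hx
    rw [Finset.mem_filter, Fintype.mem_piFinset] at hx
    refine le_trans ?_ (hB x fun j _ => hx.1 j)
    refine Finset.card_le_card_of_injOn (fun z => z i) ?_ ?_
    · intro z hz
      simp only [Finset.coe_filter, Set.mem_ofPred_eq] at hz
      obtain ⟨hz, hzf⟩ := hz
      unfold badBox at hz
      rw [Finset.mem_filter] at hz
      have h2 : others Δ i z = others Δ i x := by
        rw [← others_update Δ i z 0, ← others_update Δ i x 0]
        exact congrArg _ hzf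
      rw [Finset.mem_coe, ← h2]
      exact hz.2
    · intro z hz z' hz' hzz
      simp only [Finset.coe_filter, Set.mem_ofPred_eq] at hz hz'
      funext j
      by_cases hj : j = i
      · subst hj
        exact hzz
      · have h2 := congrFun (hz.2.trans hz'.2.symm) j
        change Function.update z i 0 j = Function.update z' i 0 j at h2
        rwa [Function.update_of_ne hj, Function.update_of_ne hj] at h2)
  refine h1.trans (Nat.mul_le_mul_left _ ?_)
  have h2 : (badBox Δ C D T X H i).image f ⊆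
      Fintype.piFinset fun j : ι => if j = i then {(0 : Fin 2 → ℤ)} else box H := by
    intro y hy
    obtain ⟨x, hx, rfl⟩ := Finset.mem_image.1 hy
    unfold badBox at hx
    rw [Finset.mem_filter, Fintype.mem_piFinset] at hx
    rw [Fintype.mem_piFinset]
    intro j
    change Function.update x i 0 j ∈ _
    by_cases hj : j = i
    · subst hj
      rw [Function.update_self, if_pos rfl]
      exact Finset.mem_singleton_self _
    · rw [Function.update_of_ne hj, if_neg hj]
      exact hx.1 j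
  refine (Finset.card_le_card h2).trans ?_
  rw [Fintype.card_piFinset, ← Finset.mul_prod_erase _ _ (Finset.mem_univ i), if_pos rfl,
    Finset.card_singleton, one_mul]
  refine le_of_eq ?_
  rw [Finset.prod_congr rfl (fun j hj => by rw [if_neg (Finset.ne_of_mem_erase hj), card_box]),
    Finset.prod_const, Finset.card_erase_of_mem (Finset.mem_univ i), Finset.card_univ]

theorem bad_of_not_generic (Δ C D : ι → MvPolynomial (Fin 2) ℤ) (T : Finset ℕ) {X H : ℕ}
    (hbC : ∀ j, ∀ y ∈ box H, (eval y (C j)).natAbs ≤ X)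
    (hbD : ∀ j, ∀ y ∈ box H, (eval y (D j)).natAbs ≤ X) {t : ι → ℚ}
    (ht : ∀ i, |(t i).num| ≤ H ∧ (t i).den ≤ H) (h : ¬ Generic Δ C D T (fun _ => True) t) :
    ∃ i, (fun j => vec (t j)) ∈ badBox Δ C D T X H i := by
  have hbox : ∀ j, vec (t j) ∈ box H := by
    intro j
    rw [mem_box]
    obtain ⟨h1, h2⟩ := ht j
    rw [abs_le] at h1
    intro a
    fin_cases a
    · exact h1
    · show -(H : ℤ) ≤ ((t j).den : ℤ) ∧ ((t j).den : ℤ) ≤ H
      omega
  have hmem : ∀ i, (eval (vec (t i)) (Δ i) = 0 ∨ eval (vec (t i)) (C i) = 0 ∨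
      eval (vec (t i)) (D i) = 0 ∨ (eval (vec (t i)) (C i)).natAbs ∈ smooth T 1 X ∨
      (eval (vec (t i)) (D i)).natAbs ∈ smooth T (max 1 (others Δ i fun j => vec (t j))) X) →
      (fun j => vec (t j)) ∈ badBox Δ C D T X H i := by
    intro i hi
    unfold badBox badPairs
    rw [Finset.mem_filter, Fintype.mem_piFinset, Finset.mem_filter]
    exact ⟨hbox, hbox i, hi⟩
  by_cases hz : ∃ i, eval (vec (t i)) (Δ i) = 0
  · obtain ⟨i, hi⟩ := hz
    exact ⟨i, hmem i (Or.inl hi)⟩
  push Not at hz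
  have hN : ∀ i, others Δ i (fun j => vec (t j)) ≠ 0 := by
    intro i
    unfold others
    rw [Finset.prod_ne_zero_iff]
    intro j _
    rw [Int.natAbs_ne_zero]
    exact hz j
  unfold Generic at h
  push Not at h
  obtain ⟨i, hi⟩ := h
  refine ⟨i, hmem i (Or.inr ?_)⟩
  have hmax : max 1 (others Δ i fun j => vec (t j)) = others Δ i fun j => vec (t j) := by
    have := hN i
    omega
  rw [hmax]
  by_cases hC0 : eval (vec (t i)) (C i) = 0
  · exact Or.inl hC0
  refine Or.inr ?_
  by_cases hD0 : eval (vec (t i)) (D i) = 0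
  · exact Or.inl hD0
  refine Or.inr ?_
  by_cases hp : ∃ p : ℕ, p.Prime ∧ p ∉ T ∧ (p : ℤ) ∣ ev (C i) (t i)
  swap
  · left
    rw [mem_smooth]
    refine ⟨⟨by omega, hbC i _ (hbox i)⟩, fun p hpp hpd => Or.inl ?_⟩
    by_contra hpT
    exact hp ⟨p, hpp, hpT, Int.natCast_dvd.2 hpd⟩
  · right
    have hq := hi (hz i) hp
    rw [mem_smooth]
    refine ⟨⟨by omega, hbD i _ (hbox i)⟩, fun q hqp hqd => ?_⟩
    by_contra hcon
    push Not at hcon
    obtain ⟨j, hji, hj⟩ := hq q hqp hcon.1 trivial (Int.natCast_dvd.2 hqd)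
    apply hcon.2
    unfold others
    refine dvd_trans ?_ (Finset.dvd_prod_of_mem _ (Finset.mem_erase.2 ⟨hji, Finset.mem_univ j⟩))
    rw [← Int.natCast_dvd]
    exact hj

/-- **Counting tuples.** All but `O(H ^ (2 r - 1 + ε))` of the `r`-tuples of rational numbers of
height at most `H` are generic. -/
theorem count_generic [Nonempty ι] (Δ C D : ι → MvPolynomial (Fin 2) ℤ) (hΔ : ∀ i, Δ i ≠ 0)
    (hC : ∀ i, 0 < (C i).totalDegree) (hD : ∀ i, 0 < (D i).totalDegree) (T : Finset ℕ) {ε : ℝ}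
    (hε : 0 < ε) : ∃ K : ℝ, ∀ H : ℕ, 1 ≤ H →
    (Nat.card {t : ι → ℚ // (∀ i, |(t i).num| ≤ H ∧ (t i).den ≤ H) ∧
      ¬ Generic Δ C D T (fun _ => True) t} : ℝ) ≤
      K * (H : ℝ) ^ (2 * (Fintype.card ι : ℝ) - 1 + ε) := by
  classical
  set r := Fintype.card ι with hr
  have hr1 : 1 ≤ r := Fintype.card_pos
  have hr0 : (0 : ℝ) < r := by exact_mod_cast hr1
  -- the bounds for the polynomials
  obtain ⟨A, k, d, hA, hbΔ, hbC, hbD, hd⟩ : ∃ A k d : ℕ, 1 ≤ A ∧
      (∀ H : ℕ, 1 ≤ H → ∀ j, ∀ y ∈ box H, (eval y (Δ j)).natAbs ≤ A * H ^ k) ∧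
      (∀ H : ℕ, 1 ≤ H → ∀ j, ∀ y ∈ box H, (eval y (C j)).natAbs ≤ A * H ^ k) ∧
      (∀ H : ℕ, 1 ≤ H → ∀ j, ∀ y ∈ box H, (eval y (D j)).natAbs ≤ A * H ^ k) ∧
      ∀ j, (Δ j).totalDegree + (C j).totalDegree + (D j).totalDegree ≤ d := by
    choose a1 ha1 using fun j => eval_bound (Δ j)
    choose a2 ha2 using fun j => eval_bound (C j)
    choose a3 ha3 using fun j => eval_bound (D j)
    set d := ∑ j, ((Δ j).totalDegree + (C j).totalDegree + (D j).totalDegree) with hd
    set A := 1 + ∑ j, (a1 j + a2 j + a3 j) with hA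
    have hdj : ∀ j, (Δ j).totalDegree + (C j).totalDegree + (D j).totalDegree ≤ d := fun j =>
      Finset.single_le_sum (f := fun j => (Δ j).totalDegree + (C j).totalDegree +
        (D j).totalDegree) (fun _ _ => Nat.zero_le _) (Finset.mem_univ j)
    have hAj : ∀ j, a1 j + a2 j + a3 j ≤ A := by
      intro j
      have := Finset.single_le_sum (f := fun j => a1 j + a2 j + a3 j) (fun _ _ => Nat.zero_le _)
        (Finset.mem_univ j)
      omega
    refine ⟨A, d, d, by omega, fun H hH j y hy => ?_, fun H hH j y hy => ?_,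
      fun H hH j y hy => ?_, hdj⟩
    · refine (ha1 j H hH y hy).trans (Nat.mul_le_mul (by have := hAj j; omega)
        (Nat.pow_le_pow_right hH (by have := hdj j; omega)))
    · refine (ha2 j H hH y hy).trans (Nat.mul_le_mul (by have := hAj j; omega)
        (Nat.pow_le_pow_right hH (by have := hdj j; omega)))
    · refine (ha3 j H hH y hy).trans (Nat.mul_le_mul (by have := hAj j; omega)
        (Nat.pow_le_pow_right hH (by have := hdj j; omega)))
  set ε' : ℝ := ε / (k * r + 1) with hε'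
  have hkr : (0 : ℝ) < k * r + 1 := by positivity
  have hε'0 : 0 < ε' := by positivity
  obtain ⟨C₀, hC₀, hC₀'⟩ := card_smooth T hε'0
  set G : ℝ := ((A : ℝ) ^ r) ^ ε' with hG
  have hG0 : 0 ≤ G := by positivity
  refine ⟨r * 9 ^ (r - 1) * (d * 3 * (1 + 4 * (C₀ * G))), fun H hH => ?_⟩
  have hH0 : (0 : ℝ) < H := by exact_mod_cast hH
  have hH1 : (1 : ℝ) ≤ H := by exact_mod_cast hH
  set X := A * H ^ k with hX
  have hX1 : 1 ≤ X := Nat.mul_pos hA (pow_pos hH k)
  set BR : ℝ := (d * 3 * (1 + 4 * (C₀ * G))) * (H : ℝ) ^ (1 + ε) with hBR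
  have hBR0 : 0 ≤ BR := by positivity
  have hHε : (1 : ℝ) ≤ (H : ℝ) ^ ε := Real.one_le_rpow hH1 hε.le
  have hbound : ∀ (i : ι) (x : ι → Fin 2 → ℤ), (∀ j, j ≠ i → x j ∈ box H) →
      (badPairs (Δ i) (C i) (D i) T (max 1 (others Δ i x)) X H).card ≤ ⌊BR⌋₊ := by
    intro i x hx
    rw [Nat.le_floor_iff hBR0]
    have hle : max 1 (others Δ i x) ≤ X ^ (r - 1) := others_le i hX1 (hbΔ H hH) hx
    set N := max 1 (others Δ i x) with hN
    have hN1 : 1 ≤ N := le_max_left _ _
    have hpow : ∀ y : ℝ, 0 ≤ y → y ≤ (X : ℝ) ^ r → y ^ ε' ≤ G * (H : ℝ) ^ ε := by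
      intro y hy0 hy
      calc y ^ ε' ≤ ((X : ℝ) ^ r) ^ ε' := Real.rpow_le_rpow hy0 hy hε'0.le
        _ = G * (((H : ℝ) ^ k) ^ r) ^ ε' := by
            rw [hX]
            push_cast
            rw [mul_pow, Real.mul_rpow (by positivity) (by positivity)]
        _ ≤ G * (H : ℝ) ^ ε := by
            refine mul_le_mul_of_nonneg_left ?_ hG0
            rw [← pow_mul, ← Real.rpow_natCast, ← Real.rpow_mul hH0.le]
            refine Real.rpow_le_rpow_of_exponent_le hH1 ?_
            rw [hε', mul_div_assoc', div_le_iff₀ hkr]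
            push_cast
            nlinarith
    have hX1' : (1 : ℝ) ≤ X := by exact_mod_cast hX1
    have hs1 : ((smooth T 1 X).card : ℝ) ≤ C₀ * (G * (H : ℝ) ^ ε) := by
      refine (hC₀' 1 X le_rfl).trans (mul_le_mul_of_nonneg_left (hpow _ (by positivity) ?_) hC₀)
      rw [Nat.cast_one, mul_one]
      calc (X : ℝ) = (X : ℝ) ^ 1 := (pow_one _).symm
        _ ≤ (X : ℝ) ^ r := pow_le_pow_right₀ hX1' hr1
    have hs2 : ((smooth T N X).card : ℝ) ≤ C₀ * (G * (H : ℝ) ^ ε) := by
      refine (hC₀' N X hN1).trans (mul_le_mul_of_nonneg_left (hpow _ (by positivity) ?_) hC₀)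
      calc (X : ℝ) * N ≤ (X : ℝ) * (X : ℝ) ^ (r - 1) := by
            refine mul_le_mul_of_nonneg_left ?_ (by positivity)
            exact_mod_cast hle
        _ = (X : ℝ) ^ r := by
            rw [← pow_succ', Nat.sub_add_cancel hr1]
    have h4 : ((badPairs (Δ i) (C i) (D i) T N X H).card : ℝ) ≤
        ((Δ i).totalDegree + (C i).totalDegree + (D i).totalDegree) * (2 * H + 1) *
          (1 + 2 * (smooth T 1 X).card + 2 * (smooth T N X).card) := by
      exact_mod_cast card_badPairs (hΔ i) (hC i) (hD i) T N X H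
    have h5 : (((Δ i).totalDegree + (C i).totalDegree + (D i).totalDegree : ℕ) : ℝ) ≤ d := by
      exact_mod_cast hd i
    push_cast at h5
    have h6 : (H : ℝ) * (H : ℝ) ^ ε = (H : ℝ) ^ (1 + ε) := by
      rw [Real.rpow_add hH0, Real.rpow_one]
    have h7 : (2 * H + 1 : ℝ) ≤ 3 * H := by linarith
    have h8 : (1 + 2 * (smooth T 1 X).card + 2 * (smooth T N X).card : ℝ) ≤
        (1 + 4 * (C₀ * G)) * (H : ℝ) ^ ε := by
      nlinarith
    calc ((badPairs (Δ i) (C i) (D i) T N X H).card : ℝ) ≤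
        ((Δ i).totalDegree + (C i).totalDegree + (D i).totalDegree) * (2 * H + 1) *
          (1 + 2 * (smooth T 1 X).card + 2 * (smooth T N X).card) := h4
      _ ≤ d * (3 * H) * ((1 + 4 * (C₀ * G)) * (H : ℝ) ^ ε) := by
          refine mul_le_mul (mul_le_mul h5 h7 (by positivity) (by positivity)) h8 (by positivity)
            (by positivity)
      _ = BR := by
          rw [hBR, ← h6]
          ring
  have hbad : ∀ i : ι, ((badBox Δ C D T X H i).card : ℝ) ≤ BR * (9 * (H : ℝ) ^ 2) ^ (r - 1) := by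
    intro i
    have h1 := card_badBox Δ C D T (X := X) (H := H) (B := ⌊BR⌋₊) i (hbound i)
    have h2 : (((2 * H + 1) ^ 2 : ℕ) : ℝ) ≤ 9 * (H : ℝ) ^ 2 := by
      push_cast
      nlinarith
    calc ((badBox Δ C D T X H i).card : ℝ) ≤
          ((⌊BR⌋₊ * ((2 * H + 1) ^ 2) ^ (r - 1) : ℕ) : ℝ) := by exact_mod_cast h1
      _ = (⌊BR⌋₊ : ℝ) * ((((2 * H + 1) ^ 2 : ℕ) : ℝ)) ^ (r - 1) := by push_cast; ring
      _ ≤ BR * (9 * (H : ℝ) ^ 2) ^ (r - 1) :=
          mul_le_mul (Nat.floor_le hBR0) (pow_le_pow_left₀ (by positivity) h2 _) (by positivity)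
            hBR0
  -- the number of bad tuples
  have hcard : Nat.card {t : ι → ℚ // (∀ i, |(t i).num| ≤ H ∧ (t i).den ≤ H) ∧
      ¬ Generic Δ C D T (fun _ => True) t} ≤
      (Finset.univ.biUnion fun i : ι => badBox Δ C D T X H i).card := by
    have h1 : Function.Injective fun (t : ι → ℚ) (j : ι) => vec (t j) := by
      intro s t h
      funext j
      exact vec_injective (congrFun h j)
    have h2 : Nat.card {t : ι → ℚ // (∀ i, |(t i).num| ≤ H ∧ (t i).den ≤ H) ∧
        ¬ Generic Δ C D T (fun _ => True) t} =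
        Set.ncard {t : ι → ℚ | (∀ i, |(t i).num| ≤ H ∧ (t i).den ≤ H) ∧
          ¬ Generic Δ C D T (fun _ => True) t} :=
      Nat.card_coe_set_eq _
    rw [h2, ← Set.ncard_image_of_injective _ h1, ← Set.ncard_coe_finset]
    refine Set.ncard_le_ncard ?_ (Finset.finite_toSet _)
    rintro _ ⟨t, ht, rfl⟩
    obtain ⟨i, hi⟩ := bad_of_not_generic Δ C D T (hbC H hH) (hbD H hH) ht.1 ht.2
    rw [Finset.mem_coe, Finset.mem_biUnion]
    exact ⟨i, Finset.mem_univ i, hi⟩
  calc (Nat.card {t : ι → ℚ // (∀ i, |(t i).num| ≤ H ∧ (t i).den ≤ H) ∧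
      ¬ Generic Δ C D T (fun _ => True) t} : ℝ)
      ≤ ((Finset.univ.biUnion fun i : ι => badBox Δ C D T X H i).card : ℝ) := by
        exact_mod_cast hcard
    _ ≤ ((∑ i : ι, (badBox Δ C D T X H i).card : ℕ) : ℝ) := by
        exact_mod_cast Finset.card_biUnion_le
    _ = ∑ i : ι, ((badBox Δ C D T X H i).card : ℝ) := by push_cast; rfl
    _ ≤ ∑ i : ι, BR * (9 * (H : ℝ) ^ 2) ^ (r - 1) := Finset.sum_le_sum fun i _ => hbad i
    _ = r * (BR * (9 * (H : ℝ) ^ 2) ^ (r - 1)) := by
        rw [Finset.sum_const, Finset.card_univ, nsmul_eq_mul]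
    _ = _ := by
        have h1 : (H : ℝ) ^ (2 * (r : ℝ) - 1 + ε) = (H : ℝ) ^ (1 + ε) * ((H : ℝ) ^ 2) ^ (r - 1) := by
          rw [← pow_mul, ← Real.rpow_natCast, ← Real.rpow_add hH0]
          congr 1
          push_cast
          rw [Nat.cast_sub hr1]
          push_cast
          ring
        rw [h1, hBR, mul_pow]
        ring

end Pool.Agent.L0h15.MN
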